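import Mathlib

set_option autoImplicit false

/-!
# The Bessel function of order 0, as a mean of cosines over the circle
-/

namespace Pool.Agent.H79.DF

/-- `J0 x`, the mean of `cos (x cos θ)` over the circle. -/
noncomputable def J0 (x : ℝ) : ℝ :=
  (2 * Real.pi)⁻¹ * ∫ θ in (0 : ℝ)..(2 * Real.pi), Real.cos (x * Real.cos θ)

end Pool.Agent.H79.DF
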