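import Pool.Agent.H93.EGM.Dec
import Pool.Agent.H79.DF.J0

set_option autoImplicit false

/-!
# Positive definite functions and Gaussian weights
-/

namespace Pool.Agent.H79.DF

open MeasureTheory Filter Topology Real
open Pool.Agent.H93.EG (PD gns_group)
open scoped RealInnerProductSpace

theorem pd_abs_le {φ : ℝ → ℝ} (hPD : PD (fun z : ℂ => φ ‖z‖)) (r : ℝ) (hr : 0 ≤ r) :
    |φ r| ≤ φ 0 := by
  obtain ⟨H, i1, i2, i3, e, T, hs⟩ := gns_group _ hPD
  have h1 : inner ℝ (e (r : ℂ)) (e 0) = φ r := by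
    rw [hs.inn, sub_zero, Complex.norm_real, Real.norm_of_nonneg hr]
  have h2 : ∀ z, ‖e z‖ * ‖e z‖ = φ 0 := by
    intro z
    rw [← real_inner_self_eq_norm_mul_norm, hs.inn, sub_self, norm_zero]
  have h3 := abs_real_inner_le_norm (e (r : ℂ)) (e 0)
  rw [h1] at h3
  have h4 : ‖e (r : ℂ)‖ = ‖e 0‖ := by
    have := (h2 (r : ℂ)).trans (h2 0).symm
    nlinarith [norm_nonneg (e (r : ℂ)), norm_nonneg (e 0)]
  rw [h4, h2] at h3
  exact h3

/-- integral form of positive definiteness -/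
theorem pd_int {φ : ℝ → ℝ} (hc : Continuous φ) (hPD : PD (fun z : ℂ => φ ‖z‖)) (a : ℂ → ℝ)
    (ha : Integrable a) :
    0 ≤ ∫ p : ℂ × ℂ, a p.1 * a p.2 * φ ‖p.1 - p.2‖ := by
  obtain ⟨H, i1, i2, i3, e, T, hs⟩ := gns_group _ hPD
  have hinn : ∀ x y, inner ℝ (e x) (e y) = φ ‖x - y‖ := hs.inn
  have hnrm : ∀ z, ‖e z‖ * ‖e z‖ = φ 0 := by
    intro z
    rw [← real_inner_self_eq_norm_mul_norm, hs.inn, sub_self, norm_zero]
  have hdist : ∀ x y, ‖e x - e y‖ * ‖e x - e y‖ = 2 * (φ 0 - φ ‖x - y‖) := by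
    intro x y
    rw [← real_inner_self_eq_norm_mul_norm, inner_sub_left, inner_sub_right, inner_sub_right,
      hinn, hinn, hinn, hinn, sub_self, sub_self, norm_zero, norm_sub_rev y x]
    ring
  have hcont : Continuous e := by
    rw [continuous_iff_continuousAt]
    intro x
    rw [ContinuousAt, tendsto_iff_norm_sub_tendsto_zero]
    have h1 : Tendsto (fun y => ‖e y - e x‖ * ‖e y - e x‖) (𝓝 x) (𝓝 0) := by
      have h2 : Continuous (fun y => 2 * (φ 0 - φ ‖y - x‖)) := by fun_prop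
      have h3 := h2.tendsto x
      simp only [sub_self, norm_zero, mul_zero] at h3
      exact h3.congr fun y => (hdist y x).symm
    have h4 := h1.sqrt
    rw [Real.sqrt_zero] at h4
    refine h4.congr fun y => ?_
    rw [Real.sqrt_mul_self (norm_nonneg _)]
  obtain ⟨C, hC⟩ : ∃ C, ∀ z, ‖e z‖ ≤ C := by
    refine ⟨1 + φ 0, fun z => ?_⟩
    nlinarith [hnrm z, norm_nonneg (e z), sq_nonneg (‖e z‖ - 1)]
  have hint : Integrable (fun x => a x • e x) :=
    ha.smul_bdd C hcont.aestronglyMeasurable (Eventually.of_forall hC)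
  have h0 : 0 ≤ inner ℝ (∫ x, a x • e x) (∫ x, a x • e x) := real_inner_self_nonneg
  have hbound : ∀ p : ℂ × ℂ, ‖φ ‖p.1 - p.2‖‖ ≤ φ 0 := by
    intro p
    rw [Real.norm_eq_abs]
    exact pd_abs_le hPD _ (norm_nonneg _)
  have hi2 : Integrable (fun p : ℂ × ℂ => a p.1 * a p.2 * φ ‖p.1 - p.2‖) := by
    have h1 : Integrable (fun p : ℂ × ℂ => a p.1 * a p.2) := ha.mul_prod ha
    refine h1.mul_bdd (c := φ 0) ?_ (Eventually.of_forall hbound)
    have : Continuous (fun p : ℂ × ℂ => φ ‖p.1 - p.2‖) := by fun_prop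
    exact this.aestronglyMeasurable
  have h1 : ∫ p : ℂ × ℂ, a p.1 * a p.2 * φ ‖p.1 - p.2‖
      = ∫ x, ∫ y, a x * a y * φ ‖x - y‖ := by
    rw [Measure.volume_eq_prod, integral_prod _ hi2]
  rw [h1]
  rw [← integral_inner hint] at h0
  refine h0.trans_eq ?_
  congr 1
  funext x
  rw [real_inner_smul_right, real_inner_comm, ← integral_inner hint, ← integral_const_mul]
  congr 1
  funext y
  rw [real_inner_smul_right, hinn]
  ring

theorem int_gauss (b : ℝ) (hb : 0 < b) : Integrable (fun v : ℂ => Real.exp (-b * ‖v‖ ^ 2)) := by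
  have h := GaussianFourier.integrable_cexp_neg_mul_sq_norm_add (V := ℂ) (b := (b : ℂ))
    (by simpa using hb) 0 0
  have h2 := h.norm
  refine h2.congr (Eventually.of_forall fun v => ?_)
  simp only [inner_zero_left, Complex.ofReal_zero, mul_zero, add_zero]
  rw [Complex.norm_exp]
  congr 1
  have : (-(b : ℂ) * (‖v‖ : ℂ) ^ 2) = ((-b * ‖v‖ ^ 2 : ℝ) : ℂ) := by push_cast; ring
  rw [this, Complex.ofReal_re]

theorem gauss_pos {φ : ℝ → ℝ} (hc : Continuous φ) (hPD : PD (fun z : ℂ => φ ‖z‖)) (τ : ℝ)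
    (hτ : 0 < τ) (ξ : ℂ) :
    0 ≤ ∫ u : ℂ, φ ‖u‖ * Real.exp (-τ * ‖u‖ ^ 2) * Real.cos ⟪ξ, u⟫ := by
  set g : ℂ → ℝ := fun x => Real.exp (-(2 * τ) * ‖x‖ ^ 2) with hg
  have hgi : Integrable g := int_gauss _ (by positivity)
  have hgc : Continuous g := by fun_prop
  have hcc : Continuous (fun x : ℂ => Real.cos ⟪ξ, x⟫) := by fun_prop
  have hsc : Continuous (fun x : ℂ => Real.sin ⟪ξ, x⟫) := by fun_prop
  have hac : Integrable (fun x => g x * Real.cos ⟪ξ, x⟫) :=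
    hgi.mul_bdd (c := 1) hcc.aestronglyMeasurable
      (Eventually.of_forall fun x => Real.abs_cos_le_one _)
  have has : Integrable (fun x => g x * Real.sin ⟪ξ, x⟫) :=
    hgi.mul_bdd (c := 1) hsc.aestronglyMeasurable
      (Eventually.of_forall fun x => Real.abs_sin_le_one _)
  have h1 := pd_int hc hPD _ hac
  have h2 := pd_int hc hPD _ has
  have hφc : Continuous (fun p : ℂ × ℂ => φ ‖p.1 - p.2‖) := by fun_prop
  have hbound : ∀ r : ℝ, 0 ≤ r → ‖φ r‖ ≤ φ 0 := fun r hr => by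
    rw [Real.norm_eq_abs]
    exact pd_abs_le hPD _ hr
  have hI : ∀ a : ℂ → ℝ, Integrable a →
      Integrable (fun p : ℂ × ℂ => a p.1 * a p.2 * φ ‖p.1 - p.2‖) := by
    intro a ha
    exact (ha.mul_prod ha).mul_bdd (c := φ 0) hφc.aestronglyMeasurable
      (Eventually.of_forall fun p => hbound _ (norm_nonneg _))
  have h3 := add_nonneg h1 h2
  rw [← integral_add (hI _ hac) (hI _ has)] at h3
  -- the integrand
  set G : ℂ × ℂ → ℝ := fun p => g p.1 * g p.2 * Real.cos ⟪ξ, p.1 - p.2⟫ * φ ‖p.1 - p.2‖ with hG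
  have h4 : (fun p : ℂ × ℂ => g p.1 * Real.cos ⟪ξ, p.1⟫ * (g p.2 * Real.cos ⟪ξ, p.2⟫) *
      φ ‖p.1 - p.2‖ + g p.1 * Real.sin ⟪ξ, p.1⟫ * (g p.2 * Real.sin ⟪ξ, p.2⟫) *
      φ ‖p.1 - p.2‖) = G := by
    funext p
    simp only [hG, inner_sub_right, Real.cos_sub]
    ring
  rw [h4] at h3
  have hGc : Continuous G := by
    simp only [hG]
    fun_prop
  have hmp : MeasurePreserving (fun z : ℂ × ℂ => (z.1 + z.2, z.2))
      ((volume : Measure ℂ).prod volume) ((volume : Measure ℂ).prod volume) :=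
    measurePreserving_add_prod volume volume
  have h5 : ∫ p, G p = ∫ p : ℂ × ℂ, G (p.1 + p.2, p.2) := by
    have := integral_map (μ := (volume : Measure ℂ).prod volume) (φ := fun z : ℂ × ℂ =>
      (z.1 + z.2, z.2)) hmp.measurable.aemeasurable (f := G) hGc.aestronglyMeasurable
    rw [hmp.map_eq] at this
    exact this
  have hGi : Integrable (fun p : ℂ × ℂ => G (p.1 + p.2, p.2)) := by
    have h6 : Integrable G := by
      rw [← h4]
      exact (hI _ hac).add (hI _ has)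
    exact hmp.integrable_comp_of_integrable h6
  have h7 : ∀ u y : ℂ, G (u + y, y) = φ ‖u‖ * Real.exp (-τ * ‖u‖ ^ 2) * Real.cos ⟪ξ, u⟫ *
      Real.exp (-(4 * τ) * ‖y + (2 : ℝ)⁻¹ • u‖ ^ 2) := by
    intro u y
    simp only [hG, hg, add_sub_cancel_right]
    have : Real.exp (-(2 * τ) * ‖u + y‖ ^ 2) * Real.exp (-(2 * τ) * ‖y‖ ^ 2)
        = Real.exp (-τ * ‖u‖ ^ 2) * Real.exp (-(4 * τ) * ‖y + (2 : ℝ)⁻¹ • u‖ ^ 2) := by
      rw [← Real.exp_add, ← Real.exp_add]
      congr 1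
      rw [norm_add_sq_real, norm_add_sq_real, norm_smul, real_inner_smul_right,
        real_inner_comm u y]
      rw [Real.norm_of_nonneg (by norm_num : (0 : ℝ) ≤ 2⁻¹)]
      ring
    rw [this]
    ring
  rw [h5, Measure.volume_eq_prod, integral_prod _ hGi] at h3
  have h8 : ∀ u : ℂ, ∫ y : ℂ, G (u + y, y) = φ ‖u‖ * Real.exp (-τ * ‖u‖ ^ 2) *
      Real.cos ⟪ξ, u⟫ * ∫ y : ℂ, Real.exp (-(4 * τ) * ‖y‖ ^ 2) := by
    intro u
    simp only [h7]
    rw [integral_const_mul]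
    congr 1
    exact integral_add_right_eq_self (fun y : ℂ => Real.exp (-(4 * τ) * ‖y‖ ^ 2)) _
  simp only [h8] at h3
  rw [integral_mul_const] at h3
  have h9 : 0 < ∫ y : ℂ, Real.exp (-(4 * τ) * ‖y‖ ^ 2) :=
    integral_exp_pos (int_gauss _ (by positivity))
  exact nonneg_of_mul_nonneg_left h3 h9

end Pool.Agent.H79.DF
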