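import Pool.Agent.H79.DF.B1

set_option autoImplicit false

/-!
# Bochner step: linear inequalities for radial positive definite functions from inequalities for `J0`
-/

namespace Pool.Agent.H79.DF

open MeasureTheory Filter Topology Real
open Pool.Agent.H93.EG (PD)
open scoped RealInnerProductSpace FourierTransform

/-- The function with a Gaussian factor. -/
noncomputable def PP (φ : ℝ → ℝ) (τ : ℝ) (u : ℂ) : ℝ := φ ‖u‖ * Real.exp (-τ * ‖u‖ ^ 2)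

/-- Its cosine transform. -/
noncomputable def GG (φ : ℝ → ℝ) (τ : ℝ) (w : ℂ) : ℝ :=
  ∫ u : ℂ, PP φ τ u * Real.cos (2 * π * ⟪w, u⟫)

theorem PP_cont {φ : ℝ → ℝ} (hc : Continuous φ) (τ : ℝ) : Continuous (PP φ τ) := by
  unfold PP
  fun_prop

theorem PP_int {φ : ℝ → ℝ} (hc : Continuous φ) (hPD : PD (fun z : ℂ => φ ‖z‖)) {τ : ℝ}
    (hτ : 0 < τ) : Integrable (PP φ τ) := by
  have hcc : Continuous (fun x : ℂ => φ ‖x‖) := by fun_prop
  exact (int_gauss τ hτ).bdd_mul (c := φ 0) hcc.aestronglyMeasurable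
    (Eventually.of_forall fun x => by
      rw [Real.norm_eq_abs]
      exact pd_abs_le hPD _ (norm_nonneg _))

theorem GG_nonneg {φ : ℝ → ℝ} (hc : Continuous φ) (hPD : PD (fun z : ℂ => φ ‖z‖)) {τ : ℝ}
    (hτ : 0 < τ) (w : ℂ) : 0 ≤ GG φ τ w := by
  have h := gauss_pos hc hPD τ hτ ((2 * π) • w)
  refine h.trans_eq ?_
  unfold GG PP
  congr 1
  funext u
  rw [real_inner_smul_left]

theorem four_PP {φ : ℝ → ℝ} (hc : Continuous φ) (hPD : PD (fun z : ℂ => φ ‖z‖)) {τ : ℝ}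
    (hτ : 0 < τ) (w : ℂ) :
    𝓕 (fun u : ℂ => ((PP φ τ u : ℝ) : ℂ)) w = ((GG φ τ w : ℝ) : ℂ) := by
  have hPi := PP_int hc hPD hτ
  have hcc : Continuous (fun x : ℂ => Real.cos (2 * π * ⟪w, x⟫)) := by fun_prop
  have hsc : Continuous (fun x : ℂ => Real.sin (2 * π * ⟪w, x⟫)) := by fun_prop
  have hac : Integrable (fun x => PP φ τ x * Real.cos (2 * π * ⟪w, x⟫)) :=
    hPi.mul_bdd (c := 1) hcc.aestronglyMeasurable
      (Eventually.of_forall fun x => Real.abs_cos_le_one _)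
  have has : Integrable (fun x => PP φ τ x * Real.sin (2 * π * ⟪w, x⟫)) :=
    hPi.mul_bdd (c := 1) hsc.aestronglyMeasurable
      (Eventually.of_forall fun x => Real.abs_sin_le_one _)
  have hodd : ∫ x : ℂ, PP φ τ x * Real.sin (2 * π * ⟪w, x⟫) = 0 := by
    have h1 := integral_neg_eq_self (fun x : ℂ => PP φ τ x * Real.sin (2 * π * ⟪w, x⟫)) volume
    have h2 : (fun x : ℂ => PP φ τ (-x) * Real.sin (2 * π * ⟪w, -x⟫))
        = fun x : ℂ => -(PP φ τ x * Real.sin (2 * π * ⟪w, x⟫)) := by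
      funext x
      rw [inner_neg_right]
      unfold PP
      rw [norm_neg]
      have : 2 * π * -⟪w, x⟫ = -(2 * π * ⟪w, x⟫) := by ring
      rw [this, Real.sin_neg]
      ring
    rw [h2, integral_neg] at h1
    linarith
  rw [Real.fourier_eq]
  have h3 : ∀ v : ℂ, 𝐞 (-⟪v, w⟫) • ((PP φ τ v : ℝ) : ℂ)
      = ((PP φ τ v * Real.cos (2 * π * ⟪w, v⟫) : ℝ) : ℂ)
        - ((PP φ τ v * Real.sin (2 * π * ⟪w, v⟫) : ℝ) : ℂ) * Complex.I := by
    intro v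
    have hcomm : ⟪v, w⟫ = ⟪w, v⟫ := real_inner_comm w v
    rw [hcomm, Circle.smul_def, Real.fourierChar_apply, Complex.exp_mul_I, ← Complex.ofReal_cos,
      ← Complex.ofReal_sin]
    have : 2 * π * -⟪w, v⟫ = -(2 * π * ⟪w, v⟫) := by ring
    rw [this, Real.cos_neg, Real.sin_neg, smul_eq_mul]
    push_cast
    ring
  simp only [h3]
  rw [integral_sub hac.ofReal (has.ofReal.mul_const _), integral_mul_const]
  rw [integral_complex_ofReal, integral_complex_ofReal, hodd]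
  simp [GG]

theorem GG_cont {φ : ℝ → ℝ} (hc : Continuous φ) (hPD : PD (fun z : ℂ => φ ‖z‖)) {τ : ℝ}
    (hτ : 0 < τ) : Continuous (GG φ τ) := by
  have h1 : Continuous (𝓕 (fun u : ℂ => ((PP φ τ u : ℝ) : ℂ))) :=
    VectorFourier.fourierIntegral_continuous Real.continuous_fourierChar
      (by exact continuous_inner) (PP_int hc hPD hτ).ofReal
  have h2 : GG φ τ = fun w => (𝓕 (fun u : ℂ => ((PP φ τ u : ℝ) : ℂ)) w).re := by
    funext w
    rw [four_PP hc hPD hτ, Complex.ofReal_re]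
  rw [h2]
  exact Complex.continuous_re.comp h1

theorem GG_le {φ : ℝ → ℝ} (hc : Continuous φ) (hPD : PD (fun z : ℂ => φ ‖z‖)) {τ : ℝ}
    (hτ : 0 < τ) (w : ℂ) : ‖GG φ τ w‖ ≤ ∫ u, ‖PP φ τ u‖ := by
  unfold GG
  refine (norm_integral_le_integral_norm _).trans ?_
  refine integral_mono_of_nonneg (Eventually.of_forall fun u => norm_nonneg _)
    (PP_int hc hPD hτ).norm (Eventually.of_forall fun u => ?_)
  simp only [norm_mul]
  have := Real.abs_cos_le_one (2 * π * ⟪w, u⟫)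
  rw [← Real.norm_eq_abs] at this
  nlinarith [norm_nonneg (PP φ τ u)]

/-- weight -/
noncomputable def HH (φ : ℝ → ℝ) (τ c : ℝ) (w : ℂ) : ℝ := Real.exp (-c⁻¹ * ‖w‖ ^ 2) * GG φ τ w

theorem HH_int {φ : ℝ → ℝ} (hc : Continuous φ) (hPD : PD (fun z : ℂ => φ ‖z‖)) {τ : ℝ}
    (hτ : 0 < τ) {c : ℝ} (hcp : 0 < c) : Integrable (HH φ τ c) :=
  (int_gauss c⁻¹ (by positivity)).mul_bdd (GG_cont hc hPD hτ).aestronglyMeasurable
    (Eventually.of_forall fun w => GG_le hc hPD hτ w)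

/-- smoothed inversion -/
noncomputable def RR (φ : ℝ → ℝ) (τ c : ℝ) (v : ℂ) : ℝ :=
  ∫ w : ℂ, HH φ τ c w * Real.cos (2 * π * ⟪v, w⟫)

theorem RR_tendsto {φ : ℝ → ℝ} (hc : Continuous φ) (hPD : PD (fun z : ℂ => φ ‖z‖)) {τ : ℝ}
    (hτ : 0 < τ) (v : ℂ) : Tendsto (fun c => RR φ τ c v) atTop (𝓝 (PP φ τ v)) := by
  have hf : Integrable (fun u : ℂ => ((PP φ τ u : ℝ) : ℂ)) := (PP_int hc hPD hτ).ofReal
  have hfc : Continuous (fun u : ℂ => ((PP φ τ u : ℝ) : ℂ)) :=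
    Complex.continuous_ofReal.comp (PP_cont hc τ)
  have h1 := Real.tendsto_integral_gaussian_smul' hf (v := v) hfc.continuousAt
  have h2 := (Complex.continuous_re.tendsto _).comp h1
  rw [Complex.ofReal_re] at h2
  refine h2.congr' ?_
  filter_upwards [Ioi_mem_atTop 0] with c (hcp : 0 < c)
  simp only [Function.comp]
  have J : Integrable (fun w : ℂ => Complex.exp (- c⁻¹ * ‖w‖ ^ 2 + 2 * π * Complex.I * ⟪v, w⟫)) :=
    GaussianFourier.integrable_cexp_neg_mul_sq_norm_add (by simpa) _ _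
  have h3 : ∫ w : ℂ, ((π * c : ℂ) ^ (Module.finrank ℝ ℂ / 2 : ℂ) *
      Complex.exp (-π ^ 2 * c * ‖v - w‖ ^ 2)) • (((PP φ τ w : ℝ) : ℂ))
      = ∫ w : ℂ, Complex.exp (- c⁻¹ * ‖w‖ ^ 2 + 2 * π * Complex.I * ⟪v, w⟫) •
        𝓕 (fun u : ℂ => ((PP φ τ u : ℝ) : ℂ)) w := by
    have B : ∫ w : ℂ, 𝓕 (fun w => Complex.exp (- c⁻¹ * ‖w‖ ^ 2 + 2 * π * Complex.I * ⟪v, w⟫)) w •
        (((PP φ τ w : ℝ) : ℂ)) = ∫ w : ℂ, Complex.exp (- c⁻¹ * ‖w‖ ^ 2 + 2 * π * Complex.I *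
        ⟪v, w⟫) • 𝓕 (fun u : ℂ => ((PP φ τ u : ℝ) : ℂ)) w := by
      simpa using! (VectorFourier.integral_fourierIntegral_smul_eq_flip (L := innerₗ ℂ)
        Real.continuous_fourierChar continuous_inner J hf)
    rw [← B]
    congr 1
    funext w
    rw [fourier_gaussian_innerProductSpace' (by simpa)]
    have hc0 : (c : ℂ) ≠ 0 := by exact_mod_cast hcp.ne'
    have e3 : (π : ℂ) / ((c⁻¹ : ℝ) : ℂ) = π * c := by
      rw [Complex.ofReal_inv, div_inv_eq_mul]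
    have e4 : -(π : ℂ) ^ 2 * (‖v - w‖ : ℂ) ^ 2 / ((c⁻¹ : ℝ) : ℂ)
        = -π ^ 2 * c * (‖v - w‖ : ℂ) ^ 2 := by
      rw [Complex.ofReal_inv, div_inv_eq_mul]
      ring
    rw [e3, e4]
  rw [h3]
  simp only [four_PP hc hPD hτ]
  have h4 : ∀ w : ℂ, (Complex.exp (- c⁻¹ * ‖w‖ ^ 2 + 2 * π * Complex.I * ⟪v, w⟫) •
      ((GG φ τ w : ℝ) : ℂ)).re = HH φ τ c w * Real.cos (2 * π * ⟪v, w⟫) := by
    intro w
    have e1 : (- (c : ℂ)⁻¹ * (‖w‖ : ℂ) ^ 2 + 2 * π * Complex.I * (⟪v, w⟫ : ℂ))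
        = ((-c⁻¹ * ‖w‖ ^ 2 : ℝ) : ℂ) + ((2 * π * ⟪v, w⟫ : ℝ) : ℂ) * Complex.I := by
      push_cast
      ring
    have e2 : ((c⁻¹ : ℝ) : ℂ) = (c : ℂ)⁻¹ := Complex.ofReal_inv c
    rw [e2, e1, Complex.exp_add, Complex.exp_mul_I, ← Complex.ofReal_exp, ← Complex.ofReal_cos,
      ← Complex.ofReal_sin, smul_eq_mul, HH]
    generalize 2 * π * ⟪v, w⟫ = b
    generalize Real.exp (-c⁻¹ * ‖w‖ ^ 2) = a
    generalize GG φ τ w = g
    simp only [Complex.mul_re, Complex.mul_im, Complex.add_re, Complex.add_im, Complex.ofReal_re,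
      Complex.ofReal_im, Complex.I_re, Complex.I_im]
    ring
  have h5 := integral_re (μ := (volume : Measure ℂ)) (𝕜 := ℂ) (f := fun w : ℂ =>
    Complex.exp (- c⁻¹ * ‖w‖ ^ 2 + 2 * π * Complex.I * ⟪v, w⟫) • ((GG φ τ w : ℝ) : ℂ)) ?_
  · have h6 : (∫ w : ℂ, Complex.exp (- c⁻¹ * ‖w‖ ^ 2 + 2 * π * Complex.I * ⟪v, w⟫) •
        ((GG φ τ w : ℝ) : ℂ)).re = RCLike.re (∫ w : ℂ, Complex.exp (- c⁻¹ * ‖w‖ ^ 2 + 2 * π *
        Complex.I * ⟪v, w⟫) • ((GG φ τ w : ℝ) : ℂ)) := rfl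
    rw [h6, ← h5]
    unfold RR
    congr 1
    funext w
    exact (h4 w)
  · refine J.mul_bdd (c := ∫ u, ‖PP φ τ u‖) ?_ (Eventually.of_forall fun w => ?_)
    · exact (Complex.continuous_ofReal.comp (GG_cont hc hPD hτ)).aestronglyMeasurable
    · rw [Complex.norm_real]
      exact GG_le hc hPD hτ w

end Pool.Agent.H79.DF
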