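import Pool.Agent.H79.DF.B2

set_option autoImplicit false

/-!
# Bochner step, end
-/

namespace Pool.Agent.H79.DF

open MeasureTheory Filter Topology Real
open Pool.Agent.H93.EG (PD)
open scoped RealInnerProductSpace FourierTransform

theorem J0_zero : J0 0 = 1 := by
  unfold J0
  simp only [zero_mul, Real.cos_zero, intervalIntegral.integral_const, sub_zero, smul_eq_mul,
    mul_one]
  exact inv_mul_cancel₀ (by positivity)

/-- average of cosines over the rotations of a vector -/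
theorem J0_avg (r : ℝ) (w : ℂ) :
    ∫ θ in (0 : ℝ)..(2 * π), Real.cos (2 * π * ⟪(r : ℂ) * Complex.exp (θ * Complex.I), w⟫)
      = 2 * π * J0 (2 * π * r * ‖w‖) := by
  have h1 : ∀ θ : ℝ, ⟪(r : ℂ) * Complex.exp (θ * Complex.I), w⟫
      = r * ‖w‖ * Real.cos (θ - Complex.arg w) := by
    intro θ
    rw [Complex.inner, Real.cos_sub]
    have hre : w.re = ‖w‖ * Real.cos (Complex.arg w) := (Complex.norm_mul_cos_arg w).symm
    have him : w.im = ‖w‖ * Real.sin (Complex.arg w) := (Complex.norm_mul_sin_arg w).symm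
    rw [Complex.exp_mul_I, ← Complex.ofReal_cos, ← Complex.ofReal_sin]
    simp only [map_mul, map_add, Complex.conj_ofReal, Complex.conj_I, Complex.mul_re,
      Complex.mul_im, Complex.add_re, Complex.add_im, Complex.ofReal_re, Complex.ofReal_im,
      Complex.neg_re, Complex.neg_im, Complex.I_re, Complex.I_im]
    rw [hre, him]
    ring
  simp only [h1]
  have h2 : Function.Periodic (fun θ : ℝ => Real.cos (2 * π * (r * ‖w‖ * Real.cos θ)))
      (2 * π) := by
    intro θ
    simp only [Real.cos_add_two_pi]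
  have h3 := intervalIntegral.integral_comp_sub_right (a := 0) (b := 2 * π)
    (fun θ : ℝ => Real.cos (2 * π * (r * ‖w‖ * Real.cos θ))) (Complex.arg w)
  rw [h3]
  have h4 := h2.intervalIntegral_add_eq (0 - Complex.arg w) 0
  have h5 : 0 - Complex.arg w + 2 * π = 2 * π - Complex.arg w := by ring
  rw [h5, zero_add] at h4
  rw [h4]
  unfold J0
  rw [mul_inv_cancel_left₀ (by positivity)]
  congr 1
  funext θ
  congr 1
  ring

theorem GG_rot (φ : ℝ → ℝ) (τ : ℝ) (A : ℂ ≃ₗᵢ[ℝ] ℂ) (w : ℂ) : GG φ τ (A w) = GG φ τ w := by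
  unfold GG
  rw [← A.measurePreserving.integral_comp A.toHomeomorph.measurableEmbedding]
  congr 1
  funext u
  unfold PP
  rw [A.inner_map_map, A.norm_map]

theorem RR_rot (φ : ℝ → ℝ) (τ c : ℝ) (A : ℂ ≃ₗᵢ[ℝ] ℂ) (v : ℂ) : RR φ τ c (A v) = RR φ τ c v := by
  unfold RR
  rw [← A.measurePreserving.integral_comp A.toHomeomorph.measurableEmbedding]
  congr 1
  funext w
  unfold HH
  rw [A.inner_map_map, A.norm_map, GG_rot]

theorem RR_J0 {φ : ℝ → ℝ} (hc : Continuous φ) (hPD : PD (fun z : ℂ => φ ‖z‖)) {τ : ℝ}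
    (hτ : 0 < τ) {c : ℝ} (hcp : 0 < c) (r : ℝ) :
    RR φ τ c (r : ℂ) = ∫ w : ℂ, HH φ τ c w * J0 (2 * π * r * ‖w‖) := by
  have hrot : ∀ θ : ℝ, RR φ τ c ((r : ℂ) * Complex.exp (θ * Complex.I)) = RR φ τ c (r : ℂ) := by
    intro θ
    have h1 := RR_rot φ τ c (rotation (Circle.exp θ)) (r : ℂ)
    rw [rotation_apply, Circle.coe_exp, mul_comm] at h1
    exact h1
  have hHi := HH_int hc hPD hτ hcp
  have h2 : ∫ θ in (0 : ℝ)..(2 * π), RR φ τ c ((r : ℂ) * Complex.exp (θ * Complex.I))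
      = 2 * π * RR φ τ c (r : ℂ) := by
    simp only [hrot, intervalIntegral.integral_const, sub_zero, smul_eq_mul]
  have h3 : ∫ θ in (0 : ℝ)..(2 * π), RR φ τ c ((r : ℂ) * Complex.exp (θ * Complex.I))
      = ∫ w : ℂ, ∫ θ in (0 : ℝ)..(2 * π), HH φ τ c w *
        Real.cos (2 * π * ⟪(r : ℂ) * Complex.exp (θ * Complex.I), w⟫) := by
    have hpi : (0 : ℝ) ≤ 2 * π := by positivity
    simp only [intervalIntegral.integral_of_le hpi]
    unfold RR
    refine integral_integral_swap ?_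
    have h4 : Integrable (fun z : ℝ × ℂ => (1 : ℝ) * HH φ τ c z.2)
        ((volume.restrict (Set.Ioc 0 (2 * π))).prod volume) :=
      Integrable.mul_prod (f := fun _ : ℝ => (1 : ℝ)) (integrable_const 1) hHi
    have h5 : Continuous (fun z : ℝ × ℂ =>
        Real.cos (2 * π * ⟪(r : ℂ) * Complex.exp (z.1 * Complex.I), z.2⟫)) := by fun_prop
    have h6 := h4.mul_bdd (c := 1) h5.aestronglyMeasurable
      (Eventually.of_forall fun x => Real.abs_cos_le_one _)
    refine h6.congr (Eventually.of_forall fun z => ?_)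
    simp [Function.uncurry]
  rw [h3] at h2
  simp only [intervalIntegral.integral_const_mul, J0_avg] at h2
  have h7 : ∫ w : ℂ, HH φ τ c w * (2 * π * J0 (2 * π * r * ‖w‖))
      = 2 * π * ∫ w : ℂ, HH φ τ c w * J0 (2 * π * r * ‖w‖) := by
    rw [← integral_const_mul]
    congr 1
    funext w
    ring
  rw [h7] at h2
  have hpi : (2 * π) ≠ 0 := by positivity
  exact (mul_left_cancel₀ hpi h2).symm

theorem J0_abs_le (x : ℝ) : |J0 x| ≤ 1 := by
  unfold J0
  have h1 : |∫ θ in (0 : ℝ)..(2 * π), Real.cos (x * Real.cos θ)| ≤ 1 * |2 * π - 0| := by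
    rw [← Real.norm_eq_abs]
    exact intervalIntegral.norm_integral_le_of_norm_le_const fun θ _ => Real.abs_cos_le_one _
  have hpi : (0 : ℝ) < 2 * π := by positivity
  rw [sub_zero, abs_of_pos hpi, one_mul] at h1
  rw [abs_mul, abs_of_pos (inv_pos.2 hpi)]
  rw [inv_mul_le_iff₀ hpi, mul_one]
  exact h1

theorem J0_cont : Continuous J0 := by
  unfold J0
  refine continuous_const.mul ?_
  exact intervalIntegral.continuous_parametric_intervalIntegral_of_continuous' (by fun_prop) _ _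

theorem bochner {φ : ℝ → ℝ} (hc : Continuous φ) (hPD : PD (fun z : ℂ => φ ‖z‖)) {ι : Type}
    [Fintype ι] (C d : ι → ℝ) (hd : ∀ i, 0 ≤ d i) (A : ℝ)
    (h : ∀ s : ℝ, 0 ≤ s → ∑ i, C i * J0 (d i * s) ≤ A) :
    ∑ i, C i * φ (d i) ≤ A * φ 0 := by
  -- with the Gaussian factor
  have key : ∀ τ : ℝ, 0 < τ → ∑ i, C i * PP φ τ (d i : ℂ) ≤ A * PP φ τ 0 := by
    intro τ hτ
    have hlim : Tendsto (fun c => ∑ i, C i * RR φ τ c (d i : ℂ)) atTop
        (𝓝 (∑ i, C i * PP φ τ (d i : ℂ))) :=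
      tendsto_finsetSum _ fun i _ => (RR_tendsto hc hPD hτ _).const_mul _
    have hlim0 : Tendsto (fun c => A * RR φ τ c ((0 : ℝ) : ℂ)) atTop (𝓝 (A * PP φ τ 0)) := by
      have := (RR_tendsto hc hPD hτ ((0 : ℝ) : ℂ)).const_mul A
      simpa using this
    refine le_of_tendsto_of_tendsto hlim hlim0 ?_
    filter_upwards [Ioi_mem_atTop 0] with c (hcp : 0 < c)
    have hHi := HH_int hc hPD hτ hcp
    have hHn : ∀ w, 0 ≤ HH φ τ c w := fun w =>
      mul_nonneg (Real.exp_nonneg _) (GG_nonneg hc hPD hτ w)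
    have hJi : ∀ r : ℝ, Integrable (fun w : ℂ => HH φ τ c w * J0 (2 * π * r * ‖w‖)) := by
      intro r
      have hcc : Continuous (fun w : ℂ => J0 (2 * π * r * ‖w‖)) :=
        J0_cont.comp (by fun_prop)
      exact hHi.mul_bdd (c := 1) hcc.aestronglyMeasurable
        (Eventually.of_forall fun w => J0_abs_le _)
    simp only [RR_J0 hc hPD hτ hcp]
    have h1 : ∑ i, C i * ∫ w : ℂ, HH φ τ c w * J0 (2 * π * d i * ‖w‖)
        = ∫ w : ℂ, HH φ τ c w * ∑ i, C i * J0 (d i * (2 * π * ‖w‖)) := by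
      have h2 : ∀ i, C i * ∫ w : ℂ, HH φ τ c w * J0 (2 * π * d i * ‖w‖)
          = ∫ w : ℂ, C i * (HH φ τ c w * J0 (2 * π * d i * ‖w‖)) := fun i =>
        (integral_const_mul _ _).symm
      simp only [h2]
      rw [← integral_finsetSum]
      · congr 1
        funext w
        rw [Finset.mul_sum]
        refine Finset.sum_congr rfl fun i _ => ?_
        have : d i * (2 * π * ‖w‖) = 2 * π * d i * ‖w‖ := by ring
        rw [this]
        ring
      · intro i _
        exact (hJi _).const_mul _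
    have h3 : A * ∫ w : ℂ, HH φ τ c w * J0 (2 * π * 0 * ‖w‖) = ∫ w : ℂ, HH φ τ c w * A := by
      rw [← integral_const_mul]
      congr 1
      funext w
      rw [mul_zero, zero_mul, J0_zero]
      ring
    rw [h1, h3]
    refine integral_mono ?_ (hHi.mul_const _) fun w => ?_
    · have h4 : (fun w : ℂ => HH φ τ c w * ∑ i, C i * J0 (d i * (2 * π * ‖w‖)))
          = fun w : ℂ => ∑ i, C i * (HH φ τ c w * J0 (2 * π * d i * ‖w‖)) := by
        funext w
        rw [Finset.mul_sum]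
        refine Finset.sum_congr rfl fun i _ => ?_
        have : d i * (2 * π * ‖w‖) = 2 * π * d i * ‖w‖ := by ring
        rw [this]
        ring
      rw [h4]
      exact integrable_finsetSum _ fun i _ => (hJi _).const_mul _
    · exact mul_le_mul_of_nonneg_left (h _ (by positivity)) (hHn w)
  have e1 : ∀ i, Tendsto (fun τ : ℝ => C i * PP φ τ (d i : ℂ)) (𝓝[>] 0) (𝓝 (C i * φ (d i))) := by
    intro i
    have h1 : Continuous (fun τ : ℝ => C i * PP φ τ (d i : ℂ)) := by
      unfold PP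
      fun_prop
    have h2 := (h1.tendsto 0).mono_left (nhdsWithin_le_nhds (s := Set.Ioi 0))
    refine h2.trans_eq ?_
    unfold PP
    rw [Complex.norm_real, Real.norm_of_nonneg (hd i)]
    simp
  have e2 : Tendsto (fun τ : ℝ => A * PP φ τ 0) (𝓝[>] 0) (𝓝 (A * φ 0)) := by
    have h1 : (fun τ : ℝ => A * PP φ τ 0) = fun _ => A * φ 0 := by
      funext τ
      simp [PP]
    rw [h1]
    exact tendsto_const_nhds
  refine le_of_tendsto_of_tendsto (tendsto_finsetSum _ fun i _ => e1 i) e2 ?_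
  filter_upwards [self_mem_nhdsWithin] with τ (hτ : 0 < τ)
  exact key τ hτ

end Pool.Agent.H79.DF
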