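import Pool.Agent.H79.DF.J0

set_option autoImplicit false

/-!
# Two numerical inequalities for `J0`

`J0' = -J1`, `(x J1)' = x J0`; alternating partial sums of the series by induction; `J0 - x^2/4` is concave and
`J0 + x^2/4` is convex (chord bounds on a grid); the decay `x J0(x)^2 ≤ W(x)` with a decreasing function `W`.
-/

namespace Pool.Agent.H79.DF

open Real Finset MeasureTheory

/-- Differentiation under the integral for a continuous integrand. -/
lemma num_param (F F' : ℝ → ℝ → ℝ) (hF : Continuous (Function.uncurry F))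
    (hF' : Continuous (Function.uncurry F'))
    (hd : ∀ x θ, HasDerivAt (fun x => F x θ) (F' x θ) x) (a b x₀ : ℝ) :
    HasDerivAt (fun x => ∫ θ in a..b, F x θ) (∫ θ in a..b, F' x₀ θ) x₀ := by
  have hc : IsCompact (Metric.closedBall x₀ 1 ×ˢ Set.uIcc a b) :=
    (isCompact_closedBall x₀ 1).prod isCompact_uIcc
  obtain ⟨C, hC⟩ := hc.exists_bound_of_continuousOn hF'.continuousOn
  refine (intervalIntegral.hasDerivAt_integral_of_dominated_loc_of_deriv_le (μ := volume)
    (F := F) (F' := F') (x₀ := x₀) (s := Metric.closedBall x₀ 1) (bound := fun _ => C)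
    (Metric.closedBall_mem_nhds x₀ one_pos) ?_ ?_ ?_ ?_ ?_ ?_).2
  · refine Filter.Eventually.of_forall fun x => ?_
    exact (hF.comp (Continuous.prodMk_right x)).aestronglyMeasurable
  · exact (hF.comp (Continuous.prodMk_right x₀)).intervalIntegrable _ _
  · exact (hF'.comp (Continuous.prodMk_right x₀)).aestronglyMeasurable
  · refine Filter.Eventually.of_forall fun t ht x hx => ?_
    exact hC (x, t) ⟨hx, Set.uIoc_subset_uIcc ht⟩
  · exact intervalIntegrable_const
  · exact Filter.Eventually.of_forall fun t _ x _ => hd x t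

/-- `J1 x`. -/
noncomputable def numJ1 (x : ℝ) : ℝ :=
  (2 * Real.pi)⁻¹ * ∫ θ in (0 : ℝ)..(2 * Real.pi), Real.cos θ * Real.sin (x * Real.cos θ)

lemma num_deriv_J0 (x : ℝ) : HasDerivAt J0 (-(numJ1 x)) x := by
  have h := num_param (fun x θ => cos (x * cos θ)) (fun x θ => -(cos θ * sin (x * cos θ)))
    (by fun_prop) (by fun_prop) (fun x θ => by
      have h1 : HasDerivAt (fun x : ℝ => x * cos θ) (1 * cos θ) x := (hasDerivAt_id x).mul_const _
      exact h1.cos.congr_deriv (by ring)) 0 (2 * π) x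
  have h3 := h.const_mul (2 * π)⁻¹
  refine (h3.congr_deriv ?_ : HasDerivAt J0 _ x)
  rw [intervalIntegral.integral_neg, numJ1]
  ring

lemma num_deriv_K (x : ℝ) : HasDerivAt (fun x => x * numJ1 x) (x * J0 x) x := by
  have h := num_param (fun x θ => x * (cos θ * sin (x * cos θ)))
    (fun x θ => x * cos (x * cos θ) + (cos θ * sin (x * cos θ) +
      sin θ * (cos (x * cos θ) * (x * (-sin θ)))))
    (by fun_prop) (by fun_prop) (fun x θ => by
      have h1 : HasDerivAt (fun x : ℝ => x * cos θ) (1 * cos θ) x := (hasDerivAt_id x).mul_const _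
      have h2 := (hasDerivAt_id' x).mul (h1.sin.const_mul (cos θ))
      refine h2.congr_deriv ?_
      have h3 : sin θ * sin θ = 1 - cos θ * cos θ := by
        have := sin_sq_add_cos_sq θ
        nlinarith
      linear_combination (x * cos (x * cos θ)) * h3) 0 (2 * π) x
  have h3 := h.const_mul (2 * π)⁻¹
  have hfun : (fun x => x * numJ1 x) =
      fun x => (2 * π)⁻¹ * ∫ θ in (0 : ℝ)..(2 * π), x * (cos θ * sin (x * cos θ)) := by
    funext x
    rw [intervalIntegral.integral_const_mul, numJ1]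
    ring
  rw [hfun]
  refine h3.congr_deriv ?_
  have hz : ∫ θ in (0 : ℝ)..(2 * π), (cos θ * sin (x * cos θ) +
      sin θ * (cos (x * cos θ) * (x * (-sin θ)))) = 0 := by
    have hd : ∀ θ ∈ Set.uIcc (0 : ℝ) (2 * π), HasDerivAt (fun θ => sin θ * sin (x * cos θ))
        (cos θ * sin (x * cos θ) + sin θ * (cos (x * cos θ) * (x * (-sin θ)))) θ := by
      intro θ _
      exact (hasDerivAt_sin θ).mul ((hasDerivAt_cos θ).const_mul x).sin
    rw [intervalIntegral.integral_eq_sub_of_hasDerivAt hd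
      ((by fun_prop : Continuous fun θ => cos θ * sin (x * cos θ) +
        sin θ * (cos (x * cos θ) * (x * (-sin θ)))).intervalIntegrable _ _)]
    simp
  rw [intervalIntegral.integral_add ((by fun_prop : Continuous fun θ =>
      x * cos (x * cos θ)).intervalIntegrable _ _)
    ((by fun_prop : Continuous fun θ => cos θ * sin (x * cos θ) +
        sin θ * (cos (x * cos θ) * (x * (-sin θ)))).intervalIntegrable _ _), hz,
    intervalIntegral.integral_const_mul, J0]
  ring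

lemma num_J0_zero : J0 0 = 1 := by
  have : (2 * π) ≠ 0 := by positivity
  simp only [J0, zero_mul, cos_zero, intervalIntegral.integral_const, sub_zero, smul_eq_mul,
    mul_one]
  exact inv_mul_cancel₀ this

lemma num_J0_le (x : ℝ) : J0 x ≤ 1 := by
  have hp : 0 < 2 * π := by positivity
  have h : ∫ θ in (0 : ℝ)..(2 * π), cos (x * cos θ) ≤ ∫ θ in (0 : ℝ)..(2 * π), (1 : ℝ) := by
    apply intervalIntegral.integral_mono_on hp.le
      ((by fun_prop : Continuous fun θ => cos (x * cos θ)).intervalIntegrable _ _)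
      intervalIntegrable_const
    intro θ _
    exact cos_le_one _
  rw [intervalIntegral.integral_const] at h
  simp only [sub_zero, smul_eq_mul, mul_one] at h
  rw [J0]
  calc (2 * π)⁻¹ * ∫ θ in (0 : ℝ)..(2 * π), cos (x * cos θ) ≤ (2 * π)⁻¹ * (2 * π) :=
        mul_le_mul_of_nonneg_left h (by positivity)
    _ = 1 := inv_mul_cancel₀ hp.ne'

lemma num_J1_lip {x y : ℝ} (h : x ≤ y) : |numJ1 y - numJ1 x| ≤ (y - x) / 2 := by
  have hp : 0 < 2 * π := by positivity
  have hi : ∀ z : ℝ, IntervalIntegrable (fun θ => cos θ * sin (z * cos θ)) volume 0 (2 * π) :=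
    fun z => (by fun_prop : Continuous fun θ => cos θ * sin (z * cos θ)).intervalIntegrable _ _
  have h1 : numJ1 y - numJ1 x = (2 * π)⁻¹ * ∫ θ in (0 : ℝ)..(2 * π),
      (cos θ * sin (y * cos θ) - cos θ * sin (x * cos θ)) := by
    rw [intervalIntegral.integral_sub (hi y) (hi x), numJ1, numJ1]
    ring
  have h2 : |∫ θ in (0 : ℝ)..(2 * π), (cos θ * sin (y * cos θ) - cos θ * sin (x * cos θ))| ≤
      ∫ θ in (0 : ℝ)..(2 * π), (y - x) * cos θ ^ 2 := by
    refine (intervalIntegral.abs_integral_le_integral_abs hp.le).trans ?_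
    apply intervalIntegral.integral_mono_on hp.le
      (((hi y).sub (hi x)).abs)
      ((by fun_prop : Continuous fun θ => (y - x) * cos θ ^ 2).intervalIntegrable _ _)
    intro θ _
    rw [← mul_sub, abs_mul]
    have h3 : |sin (y * cos θ) - sin (x * cos θ)| ≤ |y * cos θ - x * cos θ| :=
      Real.abs_sin_sub_sin_le _ _
    calc |cos θ| * |sin (y * cos θ) - sin (x * cos θ)| ≤ |cos θ| * |y * cos θ - x * cos θ| :=
          mul_le_mul_of_nonneg_left h3 (abs_nonneg _)
      _ = (y - x) * cos θ ^ 2 := by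
          rw [← sub_mul, abs_mul, abs_of_nonneg (sub_nonneg.2 h), ← sq_abs (cos θ)]
          ring
  rw [intervalIntegral.integral_const_mul, integral_cos_sq] at h2
  simp only [sin_two_pi, cos_two_pi, sin_zero, cos_zero, mul_zero, sub_zero, zero_add] at h2
  rw [h1, abs_mul, abs_of_pos (by positivity : (0 : ℝ) < (2 * π)⁻¹)]
  calc (2 * π)⁻¹ * |∫ θ in (0 : ℝ)..(2 * π),
        (cos θ * sin (y * cos θ) - cos θ * sin (x * cos θ))| ≤
        (2 * π)⁻¹ * ((y - x) * (2 * π / 2)) := mul_le_mul_of_nonneg_left h2 (by positivity)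
    _ = (y - x) / 2 := by field_simp

/-- Partial sums of the series of `J0`. -/
noncomputable def numP (M : ℕ) (x : ℝ) : ℝ :=
  ∑ m ∈ range (M + 1), (-1) ^ m * (x ^ 2 / 4) ^ m / (m.factorial : ℝ) ^ 2

/-- Partial sums of the series of `J1`. -/
noncomputable def numQ (M : ℕ) (x : ℝ) : ℝ :=
  ∑ m ∈ range (M + 1), (-1) ^ m * (x / 2) * (x ^ 2 / 4) ^ m /
    ((m.factorial : ℝ) * ((m + 1).factorial : ℝ))

lemma num_term_deriv (m : ℕ) (x : ℝ) :
    HasDerivAt (fun x : ℝ => (-1) ^ (m + 1) * (x ^ 2 / 4) ^ (m + 1) /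
      ((m + 1).factorial : ℝ) ^ 2)
      (-((-1) ^ m * (x / 2) * (x ^ 2 / 4) ^ m / ((m.factorial : ℝ) * ((m + 1).factorial : ℝ))))
      x := by
  have h1 : HasDerivAt (fun x : ℝ => x ^ 2 / 4) (((2 : ℕ) : ℝ) * x ^ (2 - 1) / 4) x :=
    (hasDerivAt_pow 2 x).div_const 4
  have h2 := ((h1.pow (m + 1)).const_mul ((-1 : ℝ) ^ (m + 1))).div_const
    (((m + 1).factorial : ℝ) ^ 2)
  refine h2.congr_deriv ?_
  have hf : ((m + 1).factorial : ℝ) = (m + 1) * (m.factorial : ℝ) := by
    rw [Nat.factorial_succ]; push_cast; ring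
  have hm : (m.factorial : ℝ) ≠ 0 := by exact_mod_cast m.factorial_ne_zero
  have hm1 : ((m : ℝ) + 1) ≠ 0 := by positivity
  rw [hf]
  simp only [Nat.add_sub_cancel]
  push_cast
  field_simp
  ring

lemma num_P_deriv (M : ℕ) (x : ℝ) : HasDerivAt (numP (M + 1)) (-(numQ M x)) x := by
  induction M with
  | zero =>
    have h1 := (num_term_deriv 0 x).const_add (1 : ℝ)
    have hf : numP (0 + 1) = fun x : ℝ => 1 + (-1) ^ (0 + 1) * (x ^ 2 / 4) ^ (0 + 1) /
        ((0 + 1).factorial : ℝ) ^ 2 := by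
      funext y
      simp [numP, sum_range_succ]
    rw [hf]
    refine h1.congr_deriv ?_
    simp [numQ]
  | succ M ih =>
    have h1 := ih.add (num_term_deriv (M + 1) x)
    have hf : numP (M + 1 + 1) = fun x : ℝ => numP (M + 1) x +
        (-1) ^ (M + 1 + 1) * (x ^ 2 / 4) ^ (M + 1 + 1) / ((M + 1 + 1).factorial : ℝ) ^ 2 := by
      funext y
      rw [numP, sum_range_succ, ← numP]
    rw [hf]
    refine h1.congr_deriv ?_
    rw [numQ, numQ, sum_range_succ _ (M + 1)]
    ring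

lemma num_Q_term (m : ℕ) (x : ℝ) :
    HasDerivAt (fun x : ℝ => x * ((-1) ^ m * (x / 2) * (x ^ 2 / 4) ^ m /
      ((m.factorial : ℝ) * ((m + 1).factorial : ℝ))))
      (x * ((-1) ^ m * (x ^ 2 / 4) ^ m / (m.factorial : ℝ) ^ 2)) x := by
  have h1 : HasDerivAt (fun x : ℝ => x ^ 2 / 4) (((2 : ℕ) : ℝ) * x ^ (2 - 1) / 4) x :=
    (hasDerivAt_pow 2 x).div_const 4
  have h2 := ((h1.pow (m + 1)).const_mul ((-1 : ℝ) ^ m * 2)).div_const
    ((m.factorial : ℝ) * ((m + 1).factorial : ℝ))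
  have hfun : (fun x : ℝ => x * ((-1) ^ m * (x / 2) * (x ^ 2 / 4) ^ m /
      ((m.factorial : ℝ) * ((m + 1).factorial : ℝ)))) =
      fun x : ℝ => (-1 : ℝ) ^ m * 2 * (x ^ 2 / 4) ^ (m + 1) /
      ((m.factorial : ℝ) * ((m + 1).factorial : ℝ)) := by
    funext y
    rw [pow_succ (y ^ 2 / 4) m]
    ring
  rw [hfun]
  refine h2.congr_deriv ?_
  have hf : ((m + 1).factorial : ℝ) = (m + 1) * (m.factorial : ℝ) := by
    rw [Nat.factorial_succ]; push_cast; ring
  have hm : (m.factorial : ℝ) ≠ 0 := by exact_mod_cast m.factorial_ne_zero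
  have hm1 : ((m : ℝ) + 1) ≠ 0 := by positivity
  rw [hf]
  simp only [Nat.add_sub_cancel]
  push_cast
  field_simp
  ring

lemma num_Q_deriv (M : ℕ) (x : ℝ) : HasDerivAt (fun x => x * numQ M x) (x * numP M x) x := by
  induction M with
  | zero =>
    have h1 := num_Q_term 0 x
    have hf : (fun x : ℝ => x * numQ 0 x) = fun x : ℝ => x * ((-1) ^ 0 * (x / 2) *
        (x ^ 2 / 4) ^ 0 / (((0 : ℕ).factorial : ℝ) * ((0 + 1).factorial : ℝ))) := by
      funext y
      simp [numQ]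
    rw [hf]
    refine h1.congr_deriv ?_
    simp [numP]
  | succ M ih =>
    have h1 := ih.add (num_Q_term (M + 1) x)
    have hf : (fun x : ℝ => x * numQ (M + 1) x) = fun x : ℝ => x * numQ M x +
        x * ((-1) ^ (M + 1) * (x / 2) * (x ^ 2 / 4) ^ (M + 1) /
          (((M + 1).factorial : ℝ) * ((M + 1 + 1).factorial : ℝ))) := by
      funext y
      rw [numQ, sum_range_succ, ← numQ]
      ring
    rw [hf]
    refine h1.congr_deriv ?_
    rw [numP, numP, sum_range_succ _ (M + 1)]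
    ring

lemma num_nonneg {f f' : ℝ → ℝ} (hf : ∀ x, HasDerivAt f (f' x) x) (h' : ∀ x, 0 < x → 0 ≤ f' x)
    (h0 : f 0 = 0) {x : ℝ} (hx : 0 ≤ x) : 0 ≤ f x := by
  have hm : MonotoneOn f (Set.Ici 0) := by
    apply monotoneOn_of_deriv_nonneg (convex_Ici 0)
    · exact fun x _ => (hf x).continuousAt.continuousWithinAt
    · exact fun x _ => (hf x).differentiableAt.differentiableWithinAt
    · intro x hx
      rw [interior_Ici] at hx
      rw [(hf x).deriv]
      exact h' x hx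
  have := hm (Set.mem_Ici.2 le_rfl) (Set.mem_Ici.2 hx) hx
  rw [h0] at this
  exact this

lemma num_P_zero (M : ℕ) : numP M 0 = 1 := by
  induction M with
  | zero => simp [numP]
  | succ M ih =>
    rw [numP, sum_range_succ, ← numP, ih]
    simp

lemma num_alt (M : ℕ) : (∀ x : ℝ, 0 ≤ x → 0 ≤ (-1) ^ M * (numP M x - J0 x)) ∧
    (∀ x : ℝ, 0 ≤ x → 0 ≤ (-1) ^ M * (x * numQ M x - x * numJ1 x)) := by
  have step : ∀ M : ℕ, (∀ x : ℝ, 0 ≤ x → 0 ≤ (-1) ^ M * (numP M x - J0 x)) →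
      (∀ x : ℝ, 0 ≤ x → 0 ≤ (-1) ^ M * (x * numQ M x - x * numJ1 x)) := by
    intro M h x hx
    refine num_nonneg (f := fun x => (-1) ^ M * (x * numQ M x - x * numJ1 x))
      (f' := fun x => (-1) ^ M * (x * numP M x - x * J0 x)) (fun y =>
        ((num_Q_deriv M y).sub (num_deriv_K y)).const_mul _) ?_ (by simp) hx
    intro y hy
    have := mul_nonneg hy.le (h y hy.le)
    calc (0 : ℝ) ≤ y * ((-1) ^ M * (numP M y - J0 y)) := this
      _ = _ := by ring
  induction M with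
  | zero =>
    have h : ∀ x : ℝ, 0 ≤ x → 0 ≤ (-1) ^ 0 * (numP 0 x - J0 x) := by
      intro x _
      have := num_J0_le x
      simp [numP]
      exact this
    exact ⟨h, step 0 h⟩
  | succ M ih =>
    have h : ∀ x : ℝ, 0 ≤ x → 0 ≤ (-1) ^ (M + 1) * (numP (M + 1) x - J0 x) := by
      intro x hx
      refine num_nonneg (f := fun x => (-1) ^ (M + 1) * (numP (M + 1) x - J0 x))
        (f' := fun x => (-1) ^ (M + 1) * (-(numQ M x) - -(numJ1 x))) (fun y =>
        ((num_P_deriv M y).sub (num_deriv_J0 y)).const_mul _) ?_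
        (by rw [num_P_zero, num_J0_zero]; simp) hx
      intro y hy
      have h1 := ih.2 y hy.le
      have h2 : 0 ≤ y * ((-1) ^ M * (numQ M y - numJ1 y)) := by
        calc (0 : ℝ) ≤ (-1) ^ M * (y * numQ M y - y * numJ1 y) := h1
          _ = _ := by ring
      have h3 : 0 ≤ (-1) ^ M * (numQ M y - numJ1 y) := nonneg_of_mul_nonneg_right h2 hy
      calc (0 : ℝ) ≤ (-1) ^ M * (numQ M y - numJ1 y) := h3
        _ = _ := by rw [pow_succ]; ring
    exact ⟨h, step (M + 1) h⟩

lemma num_lo {x : ℝ} (hx : 0 ≤ x) : numP 15 x ≤ J0 x := by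
  have := (num_alt 15).1 x hx
  norm_num at this
  linarith

lemma num_up {x : ℝ} (hx : 0 ≤ x) : J0 x ≤ numP 16 x := by
  have := (num_alt 16).1 x hx
  norm_num at this
  linarith

lemma num_J1_lo {x : ℝ} (hx : 0 < x) : numQ 15 x ≤ numJ1 x := by
  have := (num_alt 15).2 x hx.le
  have h2 : x * numQ 15 x ≤ x * numJ1 x := by
    norm_num at this
    linarith
  exact le_of_mul_le_mul_left h2 hx

lemma num_J1_up {x : ℝ} (hx : 0 < x) : numJ1 x ≤ numQ 16 x := by
  have := (num_alt 16).2 x hx.le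
  have h2 : x * numJ1 x ≤ x * numQ 16 x := by
    norm_num at this
    linarith
  exact le_of_mul_le_mul_left h2 hx

/-- The Lyapunov function for the decay of `J0`. -/
noncomputable def numW (x : ℝ) : ℝ :=
  x * J0 x ^ 2 + (x * numJ1 x) ^ 2 / x - J0 x * (x * numJ1 x) / x + J0 x ^ 2 / (2 * x)

lemma num_W_deriv {x : ℝ} (hx : 0 < x) : HasDerivAt numW (-(J0 x ^ 2 / (2 * x ^ 2))) x := by
  have hJ := num_deriv_J0 x
  have hK := num_deriv_K x
  have hi := hasDerivAt_id' x
  have hx0 : x ≠ 0 := hx.ne'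
  have h1 := hi.mul (hJ.pow 2)
  have h2 := (hK.pow 2).div hi hx0
  have h3 := (hJ.mul hK).div hi hx0
  have h4 := (hJ.pow 2).div (hi.const_mul 2) (by positivity : (2 * x : ℝ) ≠ 0)
  have h5 := ((h1.add h2).sub h3).add h4
  refine (h5.congr_deriv ?_ : HasDerivAt numW _ x)
  simp only [Nat.add_one_sub_one, Nat.cast_ofNat, pow_one, Pi.pow_apply, Pi.mul_apply]
  field_simp
  ring

lemma num_W_anti {x y : ℝ} (hx : 0 < x) (hxy : x ≤ y) : numW y ≤ numW x := by
  have h : AntitoneOn numW (Set.Ioi 0) := by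
    apply antitoneOn_of_deriv_nonpos (convex_Ioi 0)
    · exact fun z hz => (num_W_deriv hz).continuousAt.continuousWithinAt
    · rw [interior_Ioi]
      exact fun z hz => (num_W_deriv hz).differentiableAt.differentiableWithinAt
    · intro z hz
      rw [interior_Ioi] at hz
      rw [(num_W_deriv hz).deriv]
      have : 0 ≤ J0 z ^ 2 / (2 * z ^ 2) := by positivity
      linarith
  exact h (Set.mem_Ioi.2 hx) (Set.mem_Ioi.2 (hx.trans_le hxy)) hxy

lemma num_W_ge {x : ℝ} (hx : 0 < x) : x * J0 x ^ 2 ≤ numW x := by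
  have h : numW x = x * J0 x ^ 2 + (x * (numJ1 x - J0 x / (2 * x)) ^ 2 + J0 x ^ 2 / (4 * x)) := by
    unfold numW
    field_simp
    ring
  rw [h]
  have : 0 ≤ x * (numJ1 x - J0 x / (2 * x)) ^ 2 + J0 x ^ 2 / (4 * x) := by positivity
  linarith

lemma num_J0_8 : 0.1716 ≤ J0 8 ∧ J0 8 ≤ 0.1717 := by
  constructor
  · refine le_trans ?_ (num_lo (by norm_num))
    norm_num [numP, sum_range_succ, Nat.factorial]
  · refine (num_up (by norm_num)).trans ?_
    norm_num [numP, sum_range_succ, Nat.factorial]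

lemma num_J1_8 : 0.2346 ≤ numJ1 8 ∧ numJ1 8 ≤ 0.2347 := by
  constructor
  · refine le_trans ?_ (num_J1_lo (by norm_num))
    norm_num [numQ, sum_range_succ, Nat.factorial]
  · refine (num_J1_up (by norm_num)).trans ?_
    norm_num [numQ, sum_range_succ, Nat.factorial]

lemma num_W_8 : numW 8 ≤ 0.64 := by
  obtain ⟨a1, a2⟩ := num_J0_8
  obtain ⟨b1, b2⟩ := num_J1_8
  have h1 : J0 8 ^ 2 ≤ 0.1717 ^ 2 := pow_le_pow_left₀ (by linarith) a2 2
  have h2 : numJ1 8 ^ 2 ≤ 0.2347 ^ 2 := pow_le_pow_left₀ (by linarith) b2 2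
  have h3 : 0.1716 * 0.2346 ≤ J0 8 * numJ1 8 := mul_le_mul a1 b1 (by norm_num) (by linarith)
  have h4 : numW 8 = 8 * J0 8 ^ 2 + 8 * numJ1 8 ^ 2 - J0 8 * numJ1 8 + J0 8 ^ 2 / 16 := by
    unfold numW
    ring
  rw [h4]
  norm_num at h1 h2 h3 ⊢
  linarith

/-- The decay of `J0`. -/
lemma num_tail {x c : ℝ} (hx : 8 ≤ x) (hc : 0 ≤ c) (h : 0.64 ≤ c ^ 2 * x) : |J0 x| ≤ c := by
  have hx0 : 0 < x := by linarith
  have h1 := num_W_ge hx0
  have h2 := num_W_anti (by norm_num : (0 : ℝ) < 8) hx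
  have h3 := num_W_8
  have h4 : x * J0 x ^ 2 ≤ x * c ^ 2 := by linarith
  have h5 : J0 x ^ 2 ≤ c ^ 2 := le_of_mul_le_mul_left h4 hx0
  exact abs_le_of_sq_le_sq h5 hc

lemma num_deriv_sub (M x : ℝ) : HasDerivAt (fun x => J0 x - M * x ^ 2) (-(numJ1 x) - 2 * M * x) x := by
  have h := (num_deriv_J0 x).sub (((hasDerivAt_pow 2 x)).const_mul M)
  refine h.congr_deriv ?_
  push_cast
  ring

lemma num_concave : ConcaveOn ℝ Set.univ (fun x => J0 x - 1 / 4 * x ^ 2) := by
  apply Antitone.concaveOn_univ_of_deriv (fun x => (num_deriv_sub _ x).differentiableAt)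
  intro x y hxy
  rw [(num_deriv_sub _ x).deriv, (num_deriv_sub _ y).deriv]
  have := (abs_le.1 (num_J1_lip hxy)).1
  linarith

lemma num_convex : ConvexOn ℝ Set.univ (fun x => J0 x - (-(1 / 4)) * x ^ 2) := by
  apply Monotone.convexOn_univ_of_deriv (fun x => (num_deriv_sub _ x).differentiableAt)
  intro x y hxy
  rw [(num_deriv_sub _ x).deriv, (num_deriv_sub _ y).deriv]
  have := (abs_le.1 (num_J1_lip hxy)).2
  linarith

/-- The chord bound. -/
lemma num_chord {g : ℝ → ℝ} {M : ℝ} (hM : 0 ≤ M)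
    (hg : ConcaveOn ℝ Set.univ (fun x => g x - M * x ^ 2)) {a b x m : ℝ} (hab : a < b)
    (hax : a ≤ x) (hxb : x ≤ b) (ha : m ≤ g a) (hb : m ≤ g b) :
    m - M * (b - a) ^ 2 / 4 ≤ g x := by
  set t := (x - a) / (b - a) with ht
  have hba : 0 < b - a := sub_pos.2 hab
  have ht0 : 0 ≤ t := div_nonneg (by linarith) hba.le
  have ht1 : t ≤ 1 := (div_le_one hba).2 (by linarith)
  have hx : x = (1 - t) * a + t * b := by
    rw [ht]; field_simp; ring
  have h := hg.2 (Set.mem_univ a) (Set.mem_univ b) (sub_nonneg.2 ht1) ht0 (by ring)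
  simp only [smul_eq_mul] at h
  rw [← hx] at h
  have h1 : (1 - t) * m + t * m ≤ (1 - t) * g a + t * g b :=
    add_le_add (mul_le_mul_of_nonneg_left ha (sub_nonneg.2 ht1)) (mul_le_mul_of_nonneg_left hb ht0)
  have h2 : (1 - t) * a ^ 2 + t * b ^ 2 - x ^ 2 = t * (1 - t) * (b - a) ^ 2 := by
    rw [hx]; ring
  have h3 : t * (1 - t) ≤ 1 / 4 := by nlinarith [sq_nonneg (t - 1 / 2)]
  have h4 : M * (t * (1 - t) * (b - a) ^ 2) ≤ M * (1 / 4 * (b - a) ^ 2) :=
    mul_le_mul_of_nonneg_left (mul_le_mul_of_nonneg_right h3 (sq_nonneg _)) hM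
  nlinarith

/-- The chord bound from above. -/
lemma num_chord_up {a b x m : ℝ} (hab : a < b) (hax : a ≤ x) (hxb : x ≤ b) (ha : J0 a ≤ m)
    (hb : J0 b ≤ m) : J0 x ≤ m + (b - a) ^ 2 / 16 := by
  have hg : ConcaveOn ℝ Set.univ (fun x => (fun y => -(J0 y)) x - 1 / 4 * x ^ 2) := by
    have := num_convex.neg
    refine this.congr fun y _ => ?_
    simp only [Pi.neg_apply]
    ring
  have := num_chord (g := fun y => -(J0 y)) (by norm_num : (0 : ℝ) ≤ 1 / 4) hg (m := -m) hab hax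
    hxb (neg_le_neg ha) (neg_le_neg hb)
  linarith

/-! ### The grid for `J0` -/

lemma num_grid_lo (k : ℕ) (h1 : 5 ≤ k) (h2 : k ≤ 20) : -0.403 ≤ J0 ((2 * k + 1) / 5) := by
  refine le_trans ?_ (num_lo (by positivity))
  interval_cases k <;> norm_num [numP, sum_range_succ, Nat.factorial]

lemma num_grid_lo5 (k : ℕ) (h1 : 12 ≤ k) (h2 : k ≤ 20) : -0.178 ≤ J0 ((2 * k + 1) / 5) := by
  refine le_trans ?_ (num_lo (by positivity))
  interval_cases k <;> norm_num [numP, sum_range_succ, Nat.factorial]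

lemma num_grid_up (k : ℕ) (h1 : 6 ≤ k) (h2 : k ≤ 20) : J0 ((2 * k + 1) / 5) ≤ 0.3002 := by
  refine (num_up (by positivity)).trans ?_
  interval_cases k <;> norm_num [numP, sum_range_succ, Nat.factorial]

lemma num_cell {x : ℝ} {p : ℕ} (h1 : (2 * p + 1) / 5 ≤ x) (h2 : x < 8.2) :
    ∃ k : ℕ, p ≤ k ∧ k + 1 ≤ 20 ∧ (2 * (k : ℝ) + 1) / 5 ≤ x ∧ x ≤ (2 * ((k + 1 : ℕ) : ℝ) + 1) / 5 := by
  have hx : 0 ≤ (5 * x - 1) / 2 := by
    have : (0 : ℝ) ≤ p := Nat.cast_nonneg p
    linarith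
  refine ⟨⌊(5 * x - 1) / 2⌋₊, ?_, ?_, ?_, ?_⟩
  · exact Nat.le_floor (by linarith)
  · have h3 : ⌊(5 * x - 1) / 2⌋₊ < 20 := by
      rw [Nat.floor_lt hx]
      norm_num at h2 ⊢
      linarith
    omega
  · have := Nat.floor_le hx
    linarith
  · have := Nat.lt_floor_add_one ((5 * x - 1) / 2)
    push_cast
    linarith

lemma num_J0_ge {x : ℝ} (hx : 0 ≤ x) : -0.413 ≤ J0 x := by
  rcases le_or_gt x 2.2 with h | h
  · have h1 := (num_alt 1).1 x hx
    have h2 : J0 x ≥ 1 - x ^ 2 / 4 := by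
      norm_num [numP, sum_range_succ] at h1
      linarith
    have h3 : x ^ 2 ≤ 2.2 ^ 2 := pow_le_pow_left₀ hx h 2
    norm_num at h3 ⊢
    linarith
  rcases lt_or_ge x 8.2 with h' | h'
  · obtain ⟨k, hk1, hk2, hk3, hk4⟩ := num_cell (p := 5) (by norm_num at h ⊢; linarith) h'
    have := num_chord (g := J0) (by norm_num : (0 : ℝ) ≤ 1 / 4) num_concave (m := -0.403)
      (by push_cast; linarith) hk3 hk4 (num_grid_lo k hk1 (by omega))
      (num_grid_lo (k + 1) (by omega) hk2)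
    have h3 : ((2 * ((k + 1 : ℕ) : ℝ) + 1) / 5 - (2 * (k : ℝ) + 1) / 5) ^ 2 = 4 / 25 := by
      push_cast; ring
    rw [h3] at this
    norm_num at this ⊢
    linarith
  · have := (abs_le.1 (num_tail (x := x) (c := 0.3) (by norm_num at h' ⊢; linarith) (by norm_num)
      (by norm_num at h' ⊢; linarith))).1
    linarith

lemma num_J0_ge5 {x : ℝ} (hx : 5 ≤ x) (hx8 : x ≤ 8) : -0.188 ≤ J0 x := by
  obtain ⟨k, hk1, hk2, hk3, hk4⟩ := num_cell (p := 12) (x := x) (by norm_num; linarith)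
    (by norm_num; linarith)
  have := num_chord (g := J0) (by norm_num : (0 : ℝ) ≤ 1 / 4) num_concave (m := -0.178)
    (by push_cast; linarith) hk3 hk4 (num_grid_lo5 k hk1 (by omega))
    (num_grid_lo5 (k + 1) (by omega) hk2)
  have h3 : ((2 * ((k + 1 : ℕ) : ℝ) + 1) / 5 - (2 * (k : ℝ) + 1) / 5) ^ 2 = 4 / 25 := by
    push_cast; ring
  rw [h3] at this
  norm_num at this ⊢
  linarith

lemma num_J0_le' {x : ℝ} (hx : 2.9 ≤ x) : J0 x ≤ 0.3103 := by
  rcases lt_or_ge x 8.2 with h' | h'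
  · obtain ⟨k, hk1, hk2, hk3, hk4⟩ := num_cell (p := 6) (by norm_num at hx ⊢; linarith) h'
    have := num_chord_up (m := 0.3002) (by push_cast; linarith) hk3 hk4
      (num_grid_up k hk1 (by omega)) (num_grid_up (k + 1) (by omega) hk2)
    have h3 : ((2 * ((k + 1 : ℕ) : ℝ) + 1) / 5 - (2 * (k : ℝ) + 1) / 5) ^ 2 = 4 / 25 := by
      push_cast; ring
    rw [h3] at this
    norm_num at this ⊢
    linarith
  · have := (abs_le.1 (num_tail (x := x) (c := 0.3) (by norm_num at h' ⊢; linarith) (by norm_num)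
      (by norm_num at h' ⊢; linarith))).2
    linarith

theorem J0_sub (x y : ℝ) (hx : 0 ≤ x) (hy : Real.sqrt 3 * x ≤ y) : -0.74 ≤ J0 x - J0 y := by
  rcases le_or_gt y 2.9 with h | h
  · have h1 := (num_alt 1).1 x hx
    have h2 : J0 x ≥ 1 - x ^ 2 / 4 := by
      norm_num [numP, sum_range_succ] at h1
      linarith
    have h3 : (Real.sqrt 3 * x) ^ 2 ≤ y ^ 2 := pow_le_pow_left₀ (by positivity) hy 2
    rw [mul_pow, Real.sq_sqrt (by norm_num)] at h3
    have hy0 : 0 ≤ y := le_trans (by positivity) hy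
    have h4 : y ^ 2 ≤ 2.9 ^ 2 := pow_le_pow_left₀ hy0 h 2
    have h5 := num_J0_le y
    norm_num at h4 ⊢
    linarith
  · have h1 := num_J0_ge hx
    have h2 := num_J0_le' h.le
    norm_num at h1 h2 ⊢
    linarith

/-! ### The combination -/

lemma num_comb_concave : ConcaveOn ℝ Set.univ
    (fun s => (fun s => 5 * J0 s + 12 * J0 (2 * s)) s - 53 / 4 * s ^ 2) := by
  have hd : ∀ s : ℝ, HasDerivAt
      (fun s => (fun s => 5 * J0 s + 12 * J0 (2 * s)) s - 53 / 4 * s ^ 2)
      (5 * (-(numJ1 s)) + 12 * (-(numJ1 (2 * s)) * 2) - 53 / 4 * (2 * s)) s := by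
    intro s
    have h1 : HasDerivAt (fun s : ℝ => 2 * s) (2 * 1) s := (hasDerivAt_id' s).const_mul 2
    have h2 := (num_deriv_J0 (2 * s)).comp s h1
    have h3 := (((num_deriv_J0 s).const_mul 5).add (h2.const_mul 12)).sub
      ((hasDerivAt_pow 2 s).const_mul (53 / 4))
    refine h3.congr_deriv ?_
    push_cast
    ring
  apply Antitone.concaveOn_univ_of_deriv (fun x => (hd x).differentiableAt)
  intro x y hxy
  rw [(hd x).deriv, (hd y).deriv]
  have h1 := (abs_le.1 (num_J1_lip hxy)).1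
  have h2 := (abs_le.1 (num_J1_lip (by linarith : 2 * x ≤ 2 * y))).1
  linarith

lemma num_comb_grid (k : ℕ) (h : k ≤ 25) :
    -3.86 ≤ 5 * J0 (k / 5) + 12 * J0 (2 * (k / 5)) := by
  have h1 := num_lo (x := (k : ℝ) / 5) (by positivity)
  have h2 := num_lo (x := 2 * ((k : ℝ) / 5)) (by positivity)
  have h3 : -3.86 ≤ 5 * numP 15 (k / 5) + 12 * numP 15 (2 * (k / 5)) := by
    clear h1 h2
    interval_cases k <;> norm_num [numP, sum_range_succ, Nat.factorial]
  linarith

theorem J0_comb (s : ℝ) (hs : 0 ≤ s) : -4 ≤ 5 * J0 s + 12 * J0 (2 * s) := by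
  rcases lt_or_ge s 5 with h | h
  · have hk0 : 0 ≤ 5 * s := by linarith
    have hk1 := Nat.floor_le hk0
    have hk2 := Nat.lt_floor_add_one (5 * s)
    have hk3 : ⌊5 * s⌋₊ < 25 := by
      rw [Nat.floor_lt hk0]
      push_cast
      linarith
    set k := ⌊5 * s⌋₊ with hk
    have := num_chord (g := fun s => 5 * J0 s + 12 * J0 (2 * s)) (by norm_num : (0 : ℝ) ≤ 53 / 4)
      num_comb_concave (m := -3.86) (a := (k : ℝ) / 5) (b := ((k + 1 : ℕ) : ℝ) / 5) (x := s)
      (by push_cast; linarith) (by linarith) (by push_cast; linarith)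
      (num_comb_grid k (by omega)) (num_comb_grid (k + 1) (by omega))
    have h3 : (((k + 1 : ℕ) : ℝ) / 5 - (k : ℝ) / 5) ^ 2 = 1 / 25 := by
      push_cast; ring
    rw [h3] at this
    norm_num at this ⊢
    linarith
  rcases le_or_gt s 8 with h' | h'
  · have h1 := num_J0_ge5 h h'
    have h2 := (abs_le.1 (num_tail (x := 2 * s) (c := 0.253) (by linarith) (by norm_num)
      (by norm_num; linarith))).1
    norm_num at h1 h2 ⊢
    linarith
  · have h1 := (abs_le.1 (num_tail (x := s) (c := 0.283) h'.le (by norm_num)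
      (by norm_num; linarith))).1
    have h2 := (abs_le.1 (num_tail (x := 2 * s) (c := 0.2) (by linarith) (by norm_num)
      (by norm_num; linarith))).1
    norm_num at h1 h2 ⊢
    linarith

end Pool.Agent.H79.DF
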