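import Pool.Agent.H79.DF.Star
import Pool.Agent.H79.DF.B3
import Pool.Agent.H79.DF.Num

set_option autoImplicit false

/-!
# One class misses a 30-60-90 triangle: the other contains every triangle
-/

namespace Pool.Agent.H79.DF

open Pool.Agent.H58.ER
open Pool.Agent.H93.EG (PD dec)

theorem par_pt (b1 b2 b3 b4 : Bool) (h1 : ¬(b1 = true ∧ b2 = true ∧ b3 = true))
    (h2 : ¬(b2 = true ∧ b1 = true ∧ b4 = true)) :
    0 ≤ 1 + ((-1) * bt b3 + ((-1) * bt b4 + (bt b3 * bt b4 + (-1) * (bt b1 * bt b2)))) := by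
  revert h1 h2
  cases b1 <;> cases b2 <;> cases b3 <;> cases b4 <;> norm_num [bt]

theorem par_E (f : ℂ → Bool) (E : ((ℂ → Bool) → ℝ) → ℝ) (hE : IsStat f E) (ρ : ℝ) (K : ℝ → ℝ)
    (hk : Kern E ρ K) (p q r : ℂ)
    (hfree : ∀ θ w : ℂ, ‖θ‖ = 1 →
      ¬(f (θ * p + w) = true ∧ f (θ * q + w) = true ∧ f (θ * r + w) = true)) :
    K ‖p - q‖ - K ‖2 * r - p - q‖ ≤ 1 - 2 * ρ := by
  have hb : Bdd (fun F : ℂ → Bool => 1 + ((-1) * bt (F r) + ((-1) * bt (F (p + q - r)) +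
      (bt (F r) * bt (F (p + q - r)) + (-1) * (bt (F p) * bt (F q)))))) :=
    (bdd_const 1).add (((bdd1 _).smul _).add (((bdd1 _).smul _).add ((bdd2 _ _).add
      ((bdd2 _ _).smul _))))
  have hpos := hE.nonneg _ hb fun θ w hθ => by
    have h1 := hfree θ w hθ
    have h2 := hfree (-θ) (θ * (p + q) + w) (by rw [norm_neg, hθ])
    have e1 : -θ * p + (θ * (p + q) + w) = θ * q + w := by ring
    have e2 : -θ * q + (θ * (p + q) + w) = θ * p + w := by ring
    have e3 : -θ * r + (θ * (p + q) + w) = θ * (p + q - r) + w := by ring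
    rw [e1, e2, e3] at h2
    exact par_pt _ _ _ _ h1 h2
  rw [hE.add _ _ (bdd_const 1) (((bdd1 _).smul _).add (((bdd1 _).smul _).add ((bdd2 _ _).add
      ((bdd2 _ _).smul _)))),
    hE.add _ _ ((bdd1 _).smul _) (((bdd1 _).smul _).add ((bdd2 _ _).add ((bdd2 _ _).smul _))),
    hE.add _ _ ((bdd1 _).smul _) ((bdd2 _ _).add ((bdd2 _ _).smul _)),
    hE.add _ _ (bdd2 _ _) ((bdd2 _ _).smul _), hE.smul _ _ (bdd1 _), hE.smul _ _ (bdd1 _),
    hE.smul _ _ (bdd2 _ _), hE.one, hk.one, hk.one, hk.two, hk.two] at hpos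
  have e4 : r - (p + q - r) = 2 * r - p - q := by ring
  rw [e4] at hpos
  linarith

theorem kc_facts (K : ℝ → ℝ) (hPD : PD (fun z : ℂ => K ‖z‖)) :
    ∃ kc : ℝ → ℝ, Continuous kc ∧ (∀ r, 0 < r → kc r = K r) ∧ PD (fun z : ℂ => kc ‖z‖) ∧
      0 ≤ kc 0 ∧ kc 0 ≤ K 0 := by
  obtain ⟨kc, hc, hpos, hap⟩ := dec K hPD
  have hsum : ∀ (s : Finset ℂ) (x : ℂ → ℝ),
      0 ≤ ∑ a ∈ s, ∑ b ∈ s, x a * x b * kc ‖a - b‖ := by
    intro s x
    refine le_of_forall_pos_le_add fun ε hε => ?_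
    set B : ℝ := ∑ a ∈ s, ∑ b ∈ s, |x a * x b| with hB
    have hB0 : 0 ≤ B := Finset.sum_nonneg fun a _ => Finset.sum_nonneg fun b _ => abs_nonneg _
    obtain ⟨ι, _, l, h, hl, hl1, _, hz⟩ := hap 1 one_pos (ε / (B + 1)) (by positivity)
    have h1 : ∑ a ∈ s, ∑ b ∈ s, x a * x b *
        (∑ i, ∑ j, l i * l j * K ‖a + h i - (b + h j)‖) ≤
        (∑ a ∈ s, ∑ b ∈ s, x a * x b * kc ‖a - b‖) + ε := by
      have h2 : ∀ a b : ℂ, x a * x b * (∑ i, ∑ j, l i * l j * K ‖a + h i - (b + h j)‖) ≤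
          x a * x b * kc ‖a - b‖ + |x a * x b| * (ε / (B + 1)) := by
        intro a b
        have h3 := hz a b
        have h4 : x a * x b * (∑ i, ∑ j, l i * l j * K ‖a + h i - (b + h j)‖) -
            x a * x b * kc ‖a - b‖ = x a * x b *
            ((∑ i, ∑ j, l i * l j * K ‖a + h i - (b + h j)‖) - kc ‖a - b‖) := by ring
        have h5 : x a * x b * ((∑ i, ∑ j, l i * l j * K ‖a + h i - (b + h j)‖) - kc ‖a - b‖) ≤
            |x a * x b| * (ε / (B + 1)) := by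
          refine (le_abs_self _).trans ?_
          rw [abs_mul]
          exact mul_le_mul_of_nonneg_left h3 (abs_nonneg _)
        linarith
      have h6 : ∑ a ∈ s, ∑ b ∈ s, x a * x b *
          (∑ i, ∑ j, l i * l j * K ‖a + h i - (b + h j)‖) ≤
          ∑ a ∈ s, ∑ b ∈ s, (x a * x b * kc ‖a - b‖ + |x a * x b| * (ε / (B + 1))) :=
        Finset.sum_le_sum fun a _ => Finset.sum_le_sum fun b _ => h2 a b
      refine h6.trans ?_
      simp only [Finset.sum_add_distrib, ← Finset.sum_mul]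
      have h7 : B * (ε / (B + 1)) ≤ ε := by
        rw [mul_div_assoc', div_le_iff₀ (by positivity)]
        nlinarith
      linarith
    refine le_trans ?_ h1
    -- the smoothed form is a nonnegative form of `K`
    classical
    -- points `a + h i` with weights `x a * l i`
    have h8 : ∑ a ∈ s, ∑ b ∈ s, x a * x b * (∑ i, ∑ j, l i * l j * K ‖a + h i - (b + h j)‖)
        = ∑ u ∈ s ×ˢ Finset.univ, ∑ v ∈ s ×ˢ Finset.univ,
          (x u.1 * l u.2) * (x v.1 * l v.2) * K ‖(u.1 + h u.2) - (v.1 + h v.2)‖ := by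
      rw [Finset.sum_product]
      refine Finset.sum_congr rfl fun a _ => ?_
      simp only [Finset.sum_product, Finset.mul_sum]
      rw [Finset.sum_comm' (t' := Finset.univ) (s' := fun _ => s)
        (h := fun _ _ => by simp)]
      refine Finset.sum_congr rfl fun i _ => ?_
      refine Finset.sum_congr rfl fun b _ => Finset.sum_congr rfl fun j _ => ?_
      ring
    rw [h8]
    -- push forward to distinct points
    obtain ⟨H, i1, i2, i3, e, T, hs⟩ := Pool.Agent.H93.EG.gns_group _ hPD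
    have h9 : ∑ u ∈ s ×ˢ Finset.univ, ∑ v ∈ s ×ˢ Finset.univ,
          (x u.1 * l u.2) * (x v.1 * l v.2) * K ‖(u.1 + h u.2) - (v.1 + h v.2)‖
        = inner ℝ (∑ u ∈ s ×ˢ Finset.univ, (x u.1 * l u.2) • e (u.1 + h u.2))
          (∑ u ∈ s ×ˢ Finset.univ, (x u.1 * l u.2) • e (u.1 + h u.2)) := by
      rw [sum_inner]
      refine Finset.sum_congr rfl fun u _ => ?_
      rw [inner_sum]
      refine Finset.sum_congr rfl fun v _ => ?_
      rw [real_inner_smul_left, real_inner_smul_right, hs.inn]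
      ring
    rw [h9]
    exact real_inner_self_nonneg
  have hPDc : PD (fun z : ℂ => kc ‖z‖) := ⟨fun a => by simp only [norm_neg], hsum⟩
  refine ⟨kc, hc, hpos, hPDc, ?_, ?_⟩
  · have h1 := hsum {0} (fun _ => 1)
    simpa using h1
  · refine le_of_forall_pos_le_add fun ε hε => ?_
    obtain ⟨ι, _, l, h, hl, hl1, _, hz⟩ := hap 1 one_pos ε hε
    have h1 := hz 0 0
    rw [sub_self, norm_zero] at h1
    have h2 : ∑ i, ∑ j, l i * l j * K ‖0 + h i - (0 + h j)‖ ≤ K 0 := by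
      have h3 : ∀ i j, l i * l j * K ‖0 + h i - (0 + h j)‖ ≤ l i * l j * K 0 := fun i j =>
        mul_le_mul_of_nonneg_left ((le_abs_self _).trans (pd_abs_le hPD _ (norm_nonneg _)))
          (mul_nonneg (hl i) (hl j))
      refine (Finset.sum_le_sum fun i _ => Finset.sum_le_sum fun j _ => h3 i j).trans ?_
      refine le_of_eq ?_
      have h4 : ∀ i, ∑ j, l i * l j * K 0 = l i * K 0 := by
        intro i
        rw [← Finset.sum_mul, ← Finset.mul_sum, hl1, mul_one]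
      simp only [h4]
      rw [← Finset.sum_mul, hl1, one_mul]
    have h5 := (abs_le.1 h1).1
    linarith

theorem main_false (f : ℂ → Bool) (p q r : ℂ) (hpq : p ≠ q) (h1 : ‖p - q‖ ≤ ‖r - p‖)
    (h2 : ‖p - q‖ ≤ ‖r - q‖)
    (hfree1 : ∀ θ w : ℂ, ‖θ‖ = 1 →
      ¬(f (θ * p + w) = true ∧ f (θ * q + w) = true ∧ f (θ * r + w) = true))
    (a : ℝ) (ha : 0 < a)
    (hfree2 : ∀ z1 z2 z3 : ℂ, ‖z1 - z2‖ = a → ‖z2 - z3‖ = Real.sqrt 3 * a →
      ‖z1 - z3‖ = 2 * a → ¬(f z1 = false ∧ f z2 = false ∧ f z3 = false)) : False := by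
  obtain ⟨E, hE⟩ := exists_stat f
  obtain ⟨ρ, K, hk, hPD, hK0, hρ0, hρ1⟩ := kern_exists f E hE
  have hpar := par_E f E hE ρ K hk p q r hfree1
  have hstar := star_E (fun z => !f z) _ (stat_compl f E hE) (1 - ρ) K
    (kern_compl f E hE ρ K hk) a ha (by
      intro z1 z2 z3 e1 e2 e3
      simpa using hfree2 z1 z2 z3 e1 e2 e3)
  obtain ⟨kc, hc, hpos, hPDc, hkc0, hkc1⟩ := kc_facts K hPD
  have hpq0 : 0 < ‖p - q‖ := norm_pos_iff.2 (sub_ne_zero.2 hpq)
  have hw : Real.sqrt 3 * ‖p - q‖ ≤ ‖2 * r - p - q‖ := by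
    have e1 : (2 * r - p - q) = (r - p) + (r - q) := by ring
    have e2 : (q - p) = (r - p) - (r - q) := by ring
    have e3 := parallelogram_law_with_norm ℝ (r - p) (r - q)
    rw [← e1, ← e2, norm_sub_rev q p] at e3
    have e4 : 3 * (‖p - q‖ * ‖p - q‖) ≤ ‖2 * r - p - q‖ * ‖2 * r - p - q‖ := by
      nlinarith [mul_self_le_mul_self hpq0.le h1, mul_self_le_mul_self hpq0.le h2]
    have e5 : Real.sqrt 3 * Real.sqrt 3 = 3 := Real.mul_self_sqrt (by norm_num)
    have e6 : (Real.sqrt 3 * ‖p - q‖) * (Real.sqrt 3 * ‖p - q‖) ≤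
        ‖2 * r - p - q‖ * ‖2 * r - p - q‖ := by
      nlinarith
    exact (mul_self_le_mul_self_iff (by positivity) (norm_nonneg _)).2 e6
  have hw0 : 0 < ‖2 * r - p - q‖ := lt_of_lt_of_le (by positivity) hw
  have hb1 := bochner hc hPDc (ι := Fin 2) ![-1, 1] ![‖p - q‖, ‖2 * r - p - q‖]
    (by intro i; fin_cases i <;> simp) 0.74 (by
      intro s hs
      have := J0_sub (‖p - q‖ * s) (‖2 * r - p - q‖ * s) (by positivity) (by
        rw [← mul_assoc]
        exact mul_le_mul_of_nonneg_right hw hs)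
      simp only [Fin.sum_univ_two, Matrix.cons_val_zero, Matrix.cons_val_one]
      linarith)
  have hb2 := bochner hc hPDc (ι := Fin 2) ![-5, -12] ![a, 2 * a]
    (by intro i; fin_cases i <;> simp [ha.le]) 4 (by
      intro s hs
      have := J0_comb (a * s) (by positivity)
      simp only [Fin.sum_univ_two, Matrix.cons_val_zero, Matrix.cons_val_one]
      have e1 : 2 * a * s = 2 * (a * s) := by ring
      rw [e1]
      linarith)
  simp only [Fin.sum_univ_two, Matrix.cons_val_zero, Matrix.cons_val_one] at hb1 hb2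
  rw [hpos _ hpq0, hpos _ hw0] at hb1
  rw [hpos _ ha, hpos _ (by positivity : 0 < 2 * a)] at hb2
  rw [hK0] at hkc1
  -- arithmetic
  have c1 : 0 ≤ 1 - 2 * ρ + 0.74 * (ρ * (1 - ρ)) := by linarith
  have c2 : 10 * (1 - ρ) + 17 * (1 - ρ) ^ 2 - 4 * (ρ * (1 - ρ)) ≤ 6 := by linarith
  have c3 : 1 - ρ ≤ 0.41044 := by nlinarith
  nlinarith

end Pool.Agent.H79.DF
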