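import Pool.Agent.H79.DF.StarD

set_option autoImplicit false

/-!
# The 13-point star: check, part 8
-/

namespace Pool.Agent.H79.DF

theorem star_check7 : ∀ a < 8, ∀ b < 128, okF (128 * (a + 56) + b) = true →
    0 ≤ valF (128 * (a + 56) + b) := by
  decide +kernel

end Pool.Agent.H79.DF
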