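import Pool.Agent.H79.DF.Star0

set_option autoImplicit false

/-!
# The star inequality for stationary means
-/

namespace Pool.Agent.H79.DF

open Pool.Agent.H58.ER
open Pool.Agent.H93.EG (PD stat_sum)

theorem star_lt : ∀ s < 8192, okF s = true → 0 ≤ valF s := by
  intro s hs h
  have h1 : s / 128 < 64 := by omega
  have h2 : s % 128 < 128 := by omega
  have h3 : 128 * (s / 128) + s % 128 = s := by omega
  have h4 := star_check _ h1 _ h2
  rw [h3] at h4
  exact h4 h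

theorem trips_lt : ∀ t ∈ trips, t.1 < 13 ∧ t.2.1 < 13 ∧ t.2.2 < 13 := by
  decide +kernel

theorem lw_lt : ∀ t ∈ lw, t.1 < 13 := by
  decide +kernel

theorem lc_lt : ∀ t ∈ lc, t.1 < 13 ∧ t.2.1 < 13 := by
  decide +kernel

theorem bi_bt (b : Bool) : ((bi b : ℤ) : ℝ) = bt b := by
  cases b <;> simp [bi, bt]

theorem star_real (b : ℕ → Bool)
    (hb : ∀ t ∈ trips, ¬(b t.1 = true ∧ b t.2.1 = true ∧ b t.2.2 = true)) :
    0 ≤ 72 - (lw.map fun p => (p.2 : ℝ) * bt (b p.1)).sum -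
      (lc.map fun p => (p.2.2 : ℝ) * (bt (b p.1) * bt (b p.2.1))).sum := by
  set s : ℕ := Nat.ofBits (fun i : Fin 13 => b i) with hs
  have h1 : ∀ i, i < 13 → s.testBit i = b i := fun i hi => Nat.testBit_ofBits_lt _ i hi
  have h2 : s < 8192 := Nat.ofBits_lt_two_pow (fun i : Fin 13 => b i)
  have h3 : okF s = true := by
    unfold okF
    rw [List.all_eq_true]
    intro t ht
    obtain ⟨a1, a2, a3⟩ := trips_lt t ht
    have := hb t ht
    rw [h1 _ a1, h1 _ a2, h1 _ a3]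
    revert this
    cases b t.1 <;> cases b t.2.1 <;> cases b t.2.2 <;> simp
  have h4 := star_lt s h2 h3
  have h5 : (0 : ℝ) ≤ ((valF s : ℤ) : ℝ) := by exact_mod_cast h4
  refine h5.trans_eq ?_
  unfold valF
  have e1 : (((lw.map fun p => p.2 * bi (s.testBit p.1)).sum : ℤ) : ℝ)
      = (lw.map fun p => (p.2 : ℝ) * bt (b p.1)).sum := by
    rw [Int.cast_list_sum, List.map_map]
    congr 1
    refine List.map_congr_left fun p hp => ?_
    simp only [Function.comp, Int.cast_mul, bi_bt, h1 _ (lw_lt p hp)]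
  have e2 : (((lc.map fun p => p.2.2 * (bi (s.testBit p.1) * bi (s.testBit p.2.1))).sum : ℤ) : ℝ)
      = (lc.map fun p => (p.2.2 : ℝ) * (bt (b p.1) * bt (b p.2.1))).sum := by
    rw [Int.cast_list_sum, List.map_map]
    congr 1
    refine List.map_congr_left fun p hp => ?_
    simp only [Function.comp, Int.cast_mul, bi_bt, h1 _ (lc_lt p hp).1, h1 _ (lc_lt p hp).2]
  rw [Int.cast_sub, Int.cast_sub, e1, e2]
  norm_num

theorem sum_neg_mul {α : Type} (l : List α) (c g : α → ℝ) :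
    (l.map fun p => -(c p) * g p).sum = -(l.map fun p => c p * g p).sum := by
  induction l with
  | nil => simp
  | cons a l ih =>
    simp only [List.map_cons, List.sum_cons, ih]
    ring

/-- The direction at 60 degrees. -/
noncomputable def om : ℂ := ⟨1 / 2, Real.sqrt 3 / 2⟩

/-- The 13 points. -/
noncomputable def vv (a : ℝ) (n : ℕ) : ℂ :=
  (a : ℂ) * (((sx n).1 : ℂ) + ((sx n).2 : ℂ) * om)

theorem vv_norm (a : ℝ) (ha : 0 < a) (m n : ℕ) :
    ‖vv a m - vv a n‖ = Real.sqrt (nn (sx m) (sx n) : ℝ) * a := by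
  have h3 : Real.sqrt 3 * Real.sqrt 3 = 3 := Real.mul_self_sqrt (by norm_num)
  have h1 : vv a m - vv a n = (a : ℂ) *
      ((((sx m).1 - (sx n).1 : ℝ) : ℂ) + (((sx m).2 - (sx n).2 : ℝ) : ℂ) * om) := by
    unfold vv
    push_cast
    ring
  have h2 : ‖(((((sx m).1 : ℝ) - ((sx n).1 : ℝ) : ℝ) : ℂ) +
      ((((sx m).2 : ℝ) - ((sx n).2 : ℝ) : ℝ) : ℂ) * om)‖
      = Real.sqrt (nn (sx m) (sx n) : ℝ) := by
    rw [Complex.norm_def, Complex.normSq_apply]
    congr 1
    simp only [Complex.add_re, Complex.add_im, Complex.mul_re, Complex.mul_im, Complex.ofReal_re,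
      Complex.ofReal_im, om, nn]
    push_cast
    linear_combination (((sx m).2 : ℝ) - (sx n).2) ^ 2 / 4 * h3
  rw [h1, norm_mul, h2, Complex.norm_real, Real.norm_of_nonneg ha.le, mul_comm]

theorem star_E (f : ℂ → Bool) (E : ((ℂ → Bool) → ℝ) → ℝ) (hE : IsStat f E) (ρ : ℝ) (K : ℝ → ℝ)
    (hk : Kern E ρ K) (a : ℝ) (ha : 0 < a)
    (hfree : ∀ z1 z2 z3 : ℂ, ‖z1 - z2‖ = a → ‖z2 - z3‖ = Real.sqrt 3 * a → ‖z1 - z3‖ = 2 * a →
      ¬(f z1 = true ∧ f z2 = true ∧ f z3 = true)) :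
    10 * ρ + 17 * ρ ^ 2 + 5 * K a + 12 * K (2 * a) ≤ 6 := by
  have hw := E_list f E hE lw (fun p => -(p.2 : ℝ)) (fun p F => bt (F (vv a p.1)))
    (fun p => bdd1 _)
  have hc := E_list f E hE lc (fun p => -(p.2.2 : ℝ))
    (fun p F => bt (F (vv a p.1)) * bt (F (vv a p.2.1))) (fun p => bdd2 _ _)
  have hpos : 0 ≤ E (fun F => 72 * 1 + ((lw.map fun p => -(p.2 : ℝ) * bt (F (vv a p.1))).sum +
      (lc.map fun p => -(p.2.2 : ℝ) * (bt (F (vv a p.1)) * bt (F (vv a p.2.1)))).sum)) := by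
    refine hE.nonneg _ (((bdd_const 1).smul 72).add (hw.2.add hc.2)) fun θ w hθ => ?_
    have h1 := star_real (fun n => f (θ * vv a n + w)) ?_
    · refine h1.trans_eq ?_
      have e1 : (lw.map fun p => -(p.2 : ℝ) * bt (f (θ * vv a p.1 + w))).sum
          = -(lw.map fun p => (p.2 : ℝ) * bt (f (θ * vv a p.1 + w))).sum :=
        sum_neg_mul lw (fun p => (p.2 : ℝ)) (fun p => bt (f (θ * vv a p.1 + w)))
      have e2 : (lc.map fun p => -(p.2.2 : ℝ) * (bt (f (θ * vv a p.1 + w)) *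
          bt (f (θ * vv a p.2.1 + w)))).sum
          = -(lc.map fun p => (p.2.2 : ℝ) * (bt (f (θ * vv a p.1 + w)) *
          bt (f (θ * vv a p.2.1 + w)))).sum :=
        sum_neg_mul lc (fun p => (p.2.2 : ℝ)) (fun p => bt (f (θ * vv a p.1 + w)) *
          bt (f (θ * vv a p.2.1 + w)))
      rw [e1, e2]
      ring
    · intro t ht
      obtain ⟨n1, n2, n3⟩ := trips_dist t ht
      have hd : ∀ m n, ‖(θ * vv a m + w) - (θ * vv a n + w)‖
          = Real.sqrt (nn (sx m) (sx n) : ℝ) * a := by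
        intro m n
        rw [add_sub_add_right_eq_sub, ← mul_sub, norm_mul, hθ, one_mul, vv_norm a ha]
      refine hfree _ _ _ ?_ ?_ ?_
      · rw [hd, n1]
        simp
      · rw [hd, n2]
        simp
      · rw [hd, n3]
        have : Real.sqrt ((4 : ℤ) : ℝ) = 2 := by
          rw [show (((4 : ℤ) : ℝ)) = 2 ^ 2 by norm_num]
          exact Real.sqrt_sq (by norm_num)
        rw [this]
  rw [hE.add _ _ ((bdd_const 1).smul 72) (hw.2.add hc.2), hE.add _ _ hw.2 hc.2,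
    hE.smul _ _ (bdd_const 1), hE.one, hw.1, hc.1] at hpos
  simp only [hk.one, hk.two, vv_norm a ha] at hpos
  have e1 : (lw.map fun p => -(p.2 : ℝ) * ρ).sum = -120 * ρ := by
    simp only [lw, List.map_cons, List.map_nil, List.sum_cons, List.sum_nil]
    push_cast
    ring
  set κ : ℤ → ℝ := fun n => K (Real.sqrt (n : ℝ) * a) with hκ
  have e2 : (lc.map fun p => -(p.2.2 : ℝ) * (ρ ^ 2 +
      K (Real.sqrt (nn (sx p.1) (sx p.2.1) : ℝ) * a))).sum
      = (lN.map fun q => -(q.1 : ℝ) * (ρ ^ 2 + κ q.2)).sum := by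
    rw [← lc_dist, List.map_map]
    rfl
  have e3 : (lN.map fun q => -(q.1 : ℝ) * (ρ ^ 2 + κ q.2)).sum
      = -204 * ρ ^ 2 - 60 * κ 1 - 144 * κ 4 := by
    simp only [lN, List.map_cons, List.map_nil, List.sum_cons, List.sum_nil]
    push_cast
    ring
  have k1 : κ 1 = K a := by
    simp [hκ]
  have k4 : κ 4 = K (2 * a) := by
    simp only [hκ]
    have : Real.sqrt ((4 : ℤ) : ℝ) = 2 := by
      rw [show (((4 : ℤ) : ℝ)) = 2 ^ 2 by norm_num]
      exact Real.sqrt_sq (by norm_num)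
    rw [this]
  rw [e1, e2, e3, k1, k4] at hpos
  linarith

end Pool.Agent.H79.DF
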