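import Pool.Agent.H79.DF.St0
import Pool.Agent.H79.DF.St1
import Pool.Agent.H79.DF.St2
import Pool.Agent.H79.DF.St3
import Pool.Agent.H79.DF.St4
import Pool.Agent.H79.DF.St5
import Pool.Agent.H79.DF.St6
import Pool.Agent.H79.DF.St7

set_option autoImplicit false

/-!
# The 13-point star: an inequality for sets without a 30-60-90 triangle
-/

namespace Pool.Agent.H79.DF

theorem star_check (a : ℕ) (ha : a < 64) (b : ℕ) (hb : b < 128)
    (h : okF (128 * a + b) = true) : 0 ≤ valF (128 * a + b) := by
  rcases Nat.lt_or_ge a 8 with h0 | h0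
  · have e : a - 0 + 0 = a := Nat.sub_add_cancel (by omega)
    have h2 := star_check0 (a - 0) (by omega) b hb
    rw [e] at h2
    exact h2 h
  rcases Nat.lt_or_ge a 16 with h1 | h1
  · have e : a - 8 + 8 = a := Nat.sub_add_cancel (by omega)
    have h2 := star_check1 (a - 8) (by omega) b hb
    rw [e] at h2
    exact h2 h
  rcases Nat.lt_or_ge a 24 with h2 | h2
  · have e : a - 16 + 16 = a := Nat.sub_add_cancel (by omega)
    have h2 := star_check2 (a - 16) (by omega) b hb
    rw [e] at h2
    exact h2 h
  rcases Nat.lt_or_ge a 32 with h3 | h3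
  · have e : a - 24 + 24 = a := Nat.sub_add_cancel (by omega)
    have h2 := star_check3 (a - 24) (by omega) b hb
    rw [e] at h2
    exact h2 h
  rcases Nat.lt_or_ge a 40 with h4 | h4
  · have e : a - 32 + 32 = a := Nat.sub_add_cancel (by omega)
    have h2 := star_check4 (a - 32) (by omega) b hb
    rw [e] at h2
    exact h2 h
  rcases Nat.lt_or_ge a 48 with h5 | h5
  · have e : a - 40 + 40 = a := Nat.sub_add_cancel (by omega)
    have h2 := star_check5 (a - 40) (by omega) b hb
    rw [e] at h2
    exact h2 h
  rcases Nat.lt_or_ge a 56 with h6 | h6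
  · have e : a - 48 + 48 = a := Nat.sub_add_cancel (by omega)
    have h2 := star_check6 (a - 48) (by omega) b hb
    rw [e] at h2
    exact h2 h
  have e : a - 56 + 56 = a := Nat.sub_add_cancel (by omega)
  have h2 := star_check7 (a - 56) (by omega) b hb
  rw [e] at h2
  exact h2 h

end Pool.Agent.H79.DF
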