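import Pool.Agent.H79.DF.Stat

set_option autoImplicit false

/-!
# The 13-point star: data

Points of the triangular lattice at distance `0`, `1`, `√3` from the origin. `i + j ω` has norm `√(i^2 + i j + j^2)`.
-/

namespace Pool.Agent.H79.DF

open Pool.Agent.H58.ER
open Pool.Agent.H93.EG (PD stat_sum)

/-- Coordinates of the 13 points. -/
def sx (n : ℕ) : ℤ × ℤ :=
  [(0, 0), (1, 0), (0, 1), (-1, 1), (-1, 0), (0, -1), (1, -1), (1, 1), (-1, 2), (-2, 1), (-1, -1),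
    (1, -2), (2, -1)].getD n (0, 0)

/-- Squared distance of two points of the lattice. -/
def nn (p q : ℤ × ℤ) : ℤ :=
  (p.1 - q.1) * (p.1 - q.1) + (p.1 - q.1) * (p.2 - q.2) + (p.2 - q.2) * (p.2 - q.2)

/-- The 48 triangles; the right angle is at the second point. -/
def trips : List (ℕ × ℕ × ℕ) :=
  [(1, 0, 8), (1, 0, 11), (1, 2, 4), (1, 6, 4), (1, 7, 8), (1, 12, 11),
   (2, 0, 9), (2, 0, 12), (2, 1, 5), (2, 3, 5), (2, 7, 12), (2, 8, 9),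
   (3, 0, 7), (3, 0, 10), (3, 2, 6), (3, 4, 6), (3, 8, 7), (3, 9, 10),
   (4, 0, 8), (4, 0, 11), (4, 3, 1), (4, 5, 1), (4, 9, 8), (4, 10, 11),
   (5, 0, 9), (5, 0, 12), (5, 4, 2), (5, 6, 2), (5, 10, 9), (5, 11, 12),
   (6, 0, 7), (6, 0, 10), (6, 1, 3), (6, 5, 3), (6, 11, 10), (6, 12, 7),
   (7, 1, 3), (7, 2, 6), (8, 2, 4), (8, 3, 1), (9, 3, 5), (9, 4, 2),
   (10, 4, 6), (10, 5, 3), (11, 5, 1), (11, 6, 4), (12, 1, 5), (12, 6, 2)]

/-- Weights of the points. -/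
def lw : List (ℕ × ℤ) :=
  [(0, 60), (1, -4), (2, -4), (3, -4), (4, -4), (5, -4), (6, -4), (7, 14), (8, 14), (9, 14), (10, 14), (11, 14), (12, 14)]

/-- Weights of the pairs. -/
def lc : List (ℕ × ℕ × ℤ) :=
  [(0, 1, -6), (0, 2, -6), (0, 3, -6), (0, 4, -6), (0, 5, -6), (0, 6, -6),
   (0, 7, -12), (0, 8, -12), (0, 9, -12), (0, 10, -12), (0, 11, -12), (0, 12, -12),
   (1, 2, 14), (1, 3, 14), (1, 4, 24), (1, 5, 14), (1, 6, 14), (1, 7, 1),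
   (1, 8, 6), (1, 11, 6), (1, 12, 1), (2, 3, 14), (2, 4, 14), (2, 5, 24),
   (2, 6, 14), (2, 7, 1), (2, 8, 1), (2, 9, 6), (2, 12, 6), (3, 4, 14),
   (3, 5, 14), (3, 6, 24), (3, 7, 6), (3, 8, 1), (3, 9, 1), (3, 10, 6),
   (4, 5, 14), (4, 6, 14), (4, 8, 6), (4, 9, 1), (4, 10, 1), (4, 11, 6),
   (5, 6, 14), (5, 9, 6), (5, 10, 1), (5, 11, 1), (5, 12, 6), (6, 7, 6),
   (6, 10, 6), (6, 11, 1), (6, 12, 1), (7, 8, -2), (7, 12, -2), (8, 9, -2),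
   (9, 10, -2), (10, 11, -2), (11, 12, -2)]

/-- Weights and squared distances of the pairs. -/
def lN : List (ℤ × ℤ) :=
  [(-6, 1), (-6, 1), (-6, 1), (-6, 1), (-6, 1), (-6, 1), (-12, 3), (-12, 3), (-12, 3), (-12, 3),
   (-12, 3), (-12, 3), (14, 1), (14, 3), (24, 4), (14, 3), (14, 1), (1, 1), (6, 4), (6, 4),
   (1, 1), (14, 1), (14, 3), (24, 4), (14, 3), (1, 1), (1, 1), (6, 4), (6, 4), (14, 1),
   (14, 3), (24, 4), (6, 4), (1, 1), (1, 1), (6, 4), (14, 1), (14, 3), (6, 4), (1, 1),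
   (1, 1), (6, 4), (14, 1), (6, 4), (1, 1), (1, 1), (6, 4), (6, 4), (6, 4), (1, 1),
   (1, 1), (-2, 3), (-2, 3), (-2, 3), (-2, 3), (-2, 3), (-2, 3)]

theorem trips_dist : ∀ t ∈ trips, nn (sx t.1) (sx t.2.1) = 1 ∧ nn (sx t.2.1) (sx t.2.2) = 3 ∧
    nn (sx t.1) (sx t.2.2) = 4 := by
  decide +kernel

theorem lc_dist : lc.map (fun p => (p.2.2, nn (sx p.1) (sx p.2.1))) = lN := by
  decide +kernel

/-- 0 or 1 -/
def bi (b : Bool) : ℤ := if b then 1 else 0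

/-- No triangle in the subset coded by `s`. -/
def okF (s : ℕ) : Bool :=
  trips.all fun t => !(s.testBit t.1 && s.testBit t.2.1 && s.testBit t.2.2)

/-- The form. -/
def valF (s : ℕ) : ℤ :=
  72 - (lw.map fun p => p.2 * bi (s.testBit p.1)).sum -
    (lc.map fun p => p.2.2 * (bi (s.testBit p.1) * bi (s.testBit p.2.1))).sum

end Pool.Agent.H79.DF
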