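import Pool.Agent.H93.EGM.Samp

set_option autoImplicit false

/-!
# Density and centred pair correlation of a stationary mean
-/

namespace Pool.Agent.H79.DF

open Pool.Agent.H58.ER
open Pool.Agent.H93.EG (PD stat_sum)

/-- Indicator value of a colour. -/
def bt (b : Bool) : ℝ := if b then 1 else 0

theorem bt_nonneg (b : Bool) : 0 ≤ bt b := by
  cases b <;> norm_num [bt]

theorem bt_le (b : Bool) : bt b ≤ 1 := by
  cases b <;> norm_num [bt]

theorem bt_not (b : Bool) : bt (!b) = 1 - bt b := by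
  cases b <;> norm_num [bt]

theorem bt_sq (b : Bool) : bt b * bt b = bt b := by
  cases b <;> norm_num [bt]

theorem bdd1 (z : ℂ) : Bdd (fun F : ℂ → Bool => bt (F z)) :=
  ⟨1, fun F => by rw [abs_of_nonneg (bt_nonneg _)]; exact bt_le _⟩

theorem bdd2 (z w : ℂ) : Bdd (fun F : ℂ → Bool => bt (F z) * bt (F w)) := by
  have h : ∀ a b : Bool, |bt a * bt b| ≤ 1 := by
    intro a b
    cases a <;> cases b <;> norm_num [bt]
  exact ⟨1, fun F => h _ _⟩

/-- Density and centred correlation. -/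
structure Kern (E : ((ℂ → Bool) → ℝ) → ℝ) (ρ : ℝ) (K : ℝ → ℝ) : Prop where
  one : ∀ z, E (fun F => bt (F z)) = ρ
  two : ∀ z w, E (fun F => bt (F z) * bt (F w)) = ρ ^ 2 + K ‖z - w‖

theorem kern_exists (f : ℂ → Bool) (E : ((ℂ → Bool) → ℝ) → ℝ) (hE : IsStat f E) :
    ∃ (ρ : ℝ) (K : ℝ → ℝ), Kern E ρ K ∧ PD (fun z : ℂ => K ‖z‖) ∧ K 0 = ρ * (1 - ρ) ∧
      0 ≤ ρ ∧ ρ ≤ 1 := by
  classical
  set ρ : ℝ := E (fun F => bt (F 0)) with hρ
  set K : ℝ → ℝ := fun r => E (fun F => bt (F (r : ℂ)) * bt (F 0)) - ρ ^ 2 with hK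
  have h1 : ∀ z, E (fun F => bt (F z)) = ρ := by
    intro z
    have h := hE.inv 1 z norm_one (fun F => bt (F 0)) (bdd1 0)
    simp only [zero_add, mul_zero] at h
    exact h
  have h2 : ∀ z w, E (fun F => bt (F z) * bt (F w)) = ρ ^ 2 + K ‖z - w‖ := by
    intro z w
    obtain ⟨θ, hθ, hθz⟩ : ∃ θ : ℂ, ‖θ‖ = 1 ∧ θ * (‖z - w‖ : ℂ) + w = z := by
      by_cases h : z = w
      · exact ⟨1, by simp, by simp [h]⟩
      · have h1 : (‖z - w‖ : ℝ) ≠ 0 := norm_ne_zero_iff.2 (sub_ne_zero.2 h)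
        have h2 : ((‖z - w‖ : ℝ) : ℂ) ≠ 0 := by exact_mod_cast h1
        refine ⟨(z - w) / (‖z - w‖ : ℂ), ?_, ?_⟩
        · rw [norm_div, Complex.norm_real, norm_norm, div_self h1]
        · rw [div_mul_cancel₀ _ h2]
          ring
    have h3 := hE.inv θ w hθ (fun F => bt (F (‖z - w‖ : ℂ)) * bt (F 0)) (bdd2 _ _)
    simp only [hθz, mul_zero, zero_add] at h3
    rw [h3]
    simp only [hK]
    ring
  have h0 : 0 ≤ ρ := hE.nonneg _ (bdd1 0) fun θ w _ => bt_nonneg _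
  have hle : ρ ≤ 1 := by
    have h3 : 0 ≤ E (fun F => 1 + (-1) * bt (F 0)) := by
      refine hE.nonneg _ ((bdd_const 1).add ((bdd1 0).smul (-1))) fun θ w _ => ?_
      have := bt_le (f (θ * 0 + w))
      linarith
    rw [hE.add _ _ (bdd_const 1) ((bdd1 0).smul (-1)), hE.one, hE.smul _ _ (bdd1 0), h1] at h3
    linarith
  have hK0 : K 0 = ρ * (1 - ρ) := by
    have h3 := h2 0 0
    have h4 : (fun F : ℂ → Bool => bt (F 0) * bt (F 0)) = fun F => bt (F 0) := by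
      funext F
      exact bt_sq _
    rw [h4, h1, sub_self, norm_zero] at h3
    linarith
  refine ⟨ρ, K, ⟨h1, h2⟩, ⟨fun a => by simp only [norm_neg], fun s x => ?_⟩, hK0, h0, hle⟩
  -- the square of a centred sum
  have hc : ∀ a b : ℂ, Bdd (fun F : ℂ → Bool => (bt (F a) - ρ) * (bt (F b) - ρ)) := by
    intro a b
    refine ⟨(1 + |ρ|) * (1 + |ρ|), fun F => ?_⟩
    rw [abs_mul]
    have h5 : ∀ b : Bool, |bt b - ρ| ≤ 1 + |ρ| := by
      intro b
      refine (abs_sub _ _).trans ?_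
      have : |bt b| ≤ 1 := by
        rw [abs_of_nonneg (bt_nonneg _)]
        exact bt_le _
      linarith
    exact mul_le_mul (h5 _) (h5 _) (abs_nonneg _) (by positivity)
  have hE2 : ∀ a b : ℂ, E (fun F => (bt (F a) - ρ) * (bt (F b) - ρ)) = K ‖a - b‖ := by
    intro a b
    have e1 : (fun F : ℂ → Bool => (bt (F a) - ρ) * (bt (F b) - ρ)) =
        fun F => bt (F a) * bt (F b) + ((-ρ) * bt (F a) + ((-ρ) * bt (F b) + (ρ ^ 2) * 1)) := by
      funext F
      ring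
    rw [e1, hE.add _ _ (bdd2 a b) (((bdd1 a).smul _).add (((bdd1 b).smul _).add
        ((bdd_const 1).smul _))),
      hE.add _ _ ((bdd1 a).smul _) (((bdd1 b).smul _).add ((bdd_const 1).smul _)),
      hE.add _ _ ((bdd1 b).smul _) ((bdd_const 1).smul _), hE.smul _ _ (bdd1 a),
      hE.smul _ _ (bdd1 b), hE.smul _ _ (bdd_const 1), hE.one, h1, h1, h2]
    ring
  have h3 := stat_sum f E hE (s ×ˢ s) (fun p : ℂ × ℂ => x p.1 * x p.2)
    (fun p F => (bt (F p.1) - ρ) * (bt (F p.2) - ρ)) (fun p _ => hc p.1 p.2)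
  have h4 : (fun F : ℂ → Bool => ∑ p ∈ s ×ˢ s, x p.1 * x p.2 *
      ((bt (F p.1) - ρ) * (bt (F p.2) - ρ))) = fun F => (∑ a ∈ s, x a * (bt (F a) - ρ)) ^ 2 := by
    funext F
    rw [Finset.sum_product, pow_two, Finset.sum_mul_sum]
    refine Finset.sum_congr rfl fun a _ => Finset.sum_congr rfl fun b _ => ?_
    ring
  have h5 : 0 ≤ E (fun F => (∑ a ∈ s, x a * (bt (F a) - ρ)) ^ 2) := by
    refine hE.nonneg _ ?_ fun θ w _ => sq_nonneg _
    refine ⟨(∑ a ∈ s, |x a| * (1 + |ρ|)) ^ 2, fun F => ?_⟩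
    rw [abs_pow]
    gcongr
    refine (Finset.abs_sum_le_sum_abs _ _).trans (Finset.sum_le_sum fun a _ => ?_)
    rw [abs_mul]
    gcongr
    refine (abs_sub _ _).trans ?_
    have : |bt (F a)| ≤ 1 := by
      rw [abs_of_nonneg (bt_nonneg _)]
      exact bt_le _
    linarith
  rw [h4] at h3
  rw [h3, Finset.sum_product] at h5
  simpa only [hE2] using h5

/-- The complementary colouring. -/
theorem stat_compl (f : ℂ → Bool) (E : ((ℂ → Bool) → ℝ) → ℝ) (hE : IsStat f E) :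
    IsStat (fun z => !f z) (fun Ψ => E (fun F => Ψ (fun z => !F z))) := by
  have hb : ∀ Ψ : (ℂ → Bool) → ℝ, Bdd Ψ → Bdd (fun F : ℂ → Bool => Ψ (fun z => !F z)) :=
    fun Ψ h => h.comp _
  refine ⟨fun Ψ Φ h k => hE.add _ _ (hb _ h) (hb _ k), fun c Ψ h => hE.smul c _ (hb _ h),
    fun Ψ h hp => hE.nonneg _ (hb _ h) fun θ w hθ => hp θ w hθ, hE.one,
    fun θ w hθ Ψ h => hE.inv θ w hθ _ (hb _ h)⟩

theorem kern_compl (f : ℂ → Bool) (E : ((ℂ → Bool) → ℝ) → ℝ) (hE : IsStat f E) (ρ : ℝ)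
    (K : ℝ → ℝ) (h : Kern E ρ K) :
    Kern (fun Ψ => E (fun F => Ψ (fun z => !F z))) (1 - ρ) K := by
  refine ⟨fun z => ?_, fun z w => ?_⟩
  · have e1 : (fun F : ℂ → Bool => bt (!F z)) = fun F => 1 + (-1) * bt (F z) := by
      funext F
      rw [bt_not]
      ring
    show E (fun F => bt (!F z)) = _
    rw [e1, hE.add _ _ (bdd_const 1) ((bdd1 z).smul _), hE.one, hE.smul _ _ (bdd1 z), h.one]
    ring
  · have e1 : (fun F : ℂ → Bool => bt (!F z) * bt (!F w)) =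
        fun F => bt (F z) * bt (F w) + ((-1) * bt (F z) + ((-1) * bt (F w) + 1)) := by
      funext F
      rw [bt_not, bt_not]
      ring
    show E (fun F => bt (!F z) * bt (!F w)) = _
    rw [e1, hE.add _ _ (bdd2 z w) (((bdd1 z).smul _).add (((bdd1 w).smul _).add (bdd_const 1))),
      hE.add _ _ ((bdd1 z).smul _) (((bdd1 w).smul _).add (bdd_const 1)),
      hE.add _ _ ((bdd1 w).smul _) (bdd_const 1), hE.smul _ _ (bdd1 z), hE.smul _ _ (bdd1 w),
      hE.one, h.one, h.one, h.two]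
    ring

/-- Expectation of a linear combination indexed by a list. -/
theorem E_list (f : ℂ → Bool) (E : ((ℂ → Bool) → ℝ) → ℝ) (hE : IsStat f E) {α : Type}
    (l : List α) (c : α → ℝ) (Ψ : α → (ℂ → Bool) → ℝ) (hb : ∀ a, Bdd (Ψ a)) :
    E (fun F => (l.map fun a => c a * Ψ a F).sum) = (l.map fun a => c a * E (Ψ a)).sum ∧
      Bdd (fun F : ℂ → Bool => (l.map fun a => c a * Ψ a F).sum) := by
  induction l with
  | nil =>
    simp only [List.map_nil, List.sum_nil]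
    refine ⟨?_, bdd_const 0⟩
    have := hE.smul 0 (fun _ => 1) (bdd_const 1)
    simpa using this
  | cons a l ih =>
    simp only [List.map_cons, List.sum_cons]
    refine ⟨?_, ((hb a).smul _).add ih.2⟩
    rw [hE.add _ _ ((hb a).smul _) ih.2, hE.smul _ _ (hb a), ih.1]

end Pool.Agent.H79.DF
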